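import Mathlib
import Pool.Agent.MP_2e8011_lc.Raw

set_option autoImplicit false

/-! Binary numbers for the `PT` library. -/

namespace Pool.Agent.MP_a6d740_lc

open Pool.Agent.MP_2e8011_lc

theorem encodePosNum_eq (p : PosNum) : Computability.encodePosNum p = (p : ℕ).bits := by
  induction p with
  | one => simp [Computability.encodePosNum]
  | bit1 p ih =>
    rw [Computability.encodePosNum, ih, PosNum.cast_bit1, ← two_mul, Nat.bit1_bits]
  | bit0 p ih =>
    rw [Computability.encodePosNum, ih, PosNum.cast_bit0, ← two_mul,
      Nat.bit0_bits _ (PosNum.cast_pos p).ne']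

theorem encodeNat_eq (n : ℕ) : Computability.encodeNat n = n.bits := by
  have : ∀ x : Num, Computability.encodeNum x = (x : ℕ).bits := by
    intro x
    cases x with
    | zero => simp [Computability.encodeNum]
    | pos p => simp [Computability.encodeNum, encodePosNum_eq]
  rw [Computability.encodeNat, this, Num.to_of_nat]

/-- value of a list of bits, least significant first -/
def valL (l : List Bool) : ℕ := l.foldr Nat.bit 0

@[simp] theorem valL_nil : valL [] = 0 := rfl

theorem valL_cons (b : Bool) (l : List Bool) : valL (b :: l) = 2 * valL l + b.toNat := by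
  simp [valL, Nat.bit_val]

theorem valL_bits (n : ℕ) : valL n.bits = n := by
  induction n using Nat.binaryRec' with
  | zero => simp
  | bit b n h ih => rw [Nat.bits_append_bit _ _ h, valL_cons, ih, Nat.bit_val]

theorem valL_lt (l : List Bool) : valL l < 2 ^ l.length := by
  induction l with
  | nil => simp
  | cons b l ih =>
    rw [valL_cons, List.length_cons, pow_succ]
    cases b <;> simp <;> omega

theorem valL_append_false (l : List Bool) (k : ℕ) : valL (l ++ List.replicate k false) = valL l := by
  induction l with
  | nil =>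
    induction k with
    | zero => rfl
    | succ k ih => rw [List.replicate_succ, List.nil_append, valL_cons]; simpa using ih
  | cons b l ih => rw [List.cons_append, valL_cons, valL_cons, ih]

/-- a natural number written in binary -/
structure Bin where
  val : ℕ
  deriving DecidableEq

instance : Enc Bin := ⟨fun b => b.val.bits, fun a b h => by
  cases a; cases b
  have := congrArg valL h
  simpa [valL_bits] using this⟩

instance : Inhabited Bin := ⟨⟨0⟩⟩

theorem enc_bin (b : Bin) : enc b = b.val.bits := rfl

theorem sz_bin (b : Bin) : sz b = b.val.size := Nat.size_eq_bits_len _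

theorem sz_bin_le {b : Bin} {k : ℕ} (h : b.val < 2 ^ k) : sz b ≤ k := by
  rw [sz_bin]; exact Nat.size_le.mpr h

theorem bitEncode_bin (n : ℕ) : N487b59b3.bitEncode n = enc (Bin.mk n) := encodeNat_eq n

variable {α β γ : Type} [Enc α] [Enc β] [Enc γ]

/-- Right fold, with a bound on the intermediate values. -/
theorem pt_foldr [Inhabited β] {f : α → β → γ → γ}
    (hf : PT (fun p : α × γ × β => f p.1 p.2.2 p.2.1)) {l : α → List β} (hl : PT l)
    {s : α → γ} (hs : PT s) {B : α → ℕ} (hB : PB B)
    (h : ∀ a k, sz (((l a).drop k).foldr (f a) (s a)) ≤ B a) :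
    PT (fun a => (l a).foldr (f a) (s a)) := by
  refine (PT.foldl (f := fun a c b => f a b c) hf hl.reverse hs hB (fun a k => ?_)).congr
    (fun a => by rw [List.foldl_reverse])
  rw [List.take_reverse, List.foldl_reverse]
  exact h a _

@[fun_prop] theorem pt_binBits {f : α → Bin} (hf : PT f) : PT (fun a => (f a).val.bits) :=
  PT.enc hf

/-- append a lowest bit -/
def Bin.bit (b : Bool) (x : Bin) : Bin := ⟨Nat.bit b x.val⟩

@[fun_prop] theorem pt_bit {p : α → Bool} {f : α → Bin} (hp : PT p) (hf : PT f) :
    PT (fun a => Bin.bit (p a) (f a)) := by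
  refine PT.bool_cases hp (g := fun b a => Bin.bit b (f a)) (fun b => ?_)
  cases b with
  | true =>
    exact (CP.push hf true).congr (fun a => (Nat.bits_append_bit _ _ (fun _ => rfl)).symm)
  | false =>
    refine (CP.cond (CP.isEmpty hf) (CP.const []) (CP.push hf false)).congr (fun a => ?_)
    by_cases h : (f a).val = 0
    · simp [enc_bin, Bin.bit, h]
    · have h2 : (f a).val.bits ≠ [] := by
        intro h2
        apply h
        rw [← valL_bits (f a).val, h2]; rfl
      have h3 : (enc (f a)).isEmpty = false := by simpa [enc_bin] using h2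
      simp only [h3, cond_false]
      exact (Nat.bits_append_bit _ _ (fun h' => absurd h' h)).symm

@[fun_prop] theorem pt_replicate [Inhabited β] {n : α → ℕ} {f : α → β} (hn : PT n) (hf : PT f) :
    PT (fun a => List.replicate (n a) (f a)) :=
  (PT.map (f := fun a _ => f a) (l := fun a => List.range (n a)) (by fun_prop)
    (by fun_prop)).congr (fun a => by simp)

/-- the pairs of bits of two numbers -/
def zipBits (x y : Bin) : List (Bool × Bool) :=
  (List.range (x.val.bits.length + y.val.bits.length)).map
    fun i => (x.val.bits.getD i false, y.val.bits.getD i false)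

@[fun_prop] theorem pt_zipBits {f g : α → Bin} (hf : PT f) (hg : PT g) :
    PT (fun a => zipBits (f a) (g a)) := by
  unfold zipBits
  fun_prop

theorem map_getD_range (l : List Bool) (k : ℕ) :
    (List.range (l.length + k)).map (fun i => l.getD i false) = l ++ List.replicate k false := by
  apply List.ext_getElem
  · simp
  · intro i h1 h2
    simp only [List.getElem_map, List.getElem_range, List.getD_eq_getElem?_getD]
    by_cases h : i < l.length
    · simp [List.getElem_append_left h, h]
    · rw [List.getElem_append_right (not_lt.mp h)]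
      simp [List.getElem?_eq_none (not_lt.mp h)]

theorem zipBits_fst (x y : Bin) : valL ((zipBits x y).map Prod.fst) = x.val := by
  have : (zipBits x y).map Prod.fst = x.val.bits ++ List.replicate y.val.bits.length false := by
    rw [← map_getD_range, zipBits, List.map_map]; rfl
  rw [this, valL_append_false, valL_bits]

theorem zipBits_snd (x y : Bin) : valL ((zipBits x y).map Prod.snd) = y.val := by
  have : (zipBits x y).map Prod.snd = y.val.bits ++ List.replicate x.val.bits.length false := by
    rw [← map_getD_range, zipBits, List.map_map, add_comm]; rfl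
  rw [this, valL_append_false, valL_bits]

/-- one step of addition from the highest bit -/
def addStep (p : Bool × Bool) (s : Bin × Bin) : Bin × Bin :=
  bif p.1 then (bif p.2 then (Bin.bit false s.2, Bin.bit true s.2)
    else (Bin.bit true s.1, Bin.bit false s.2))
  else (bif p.2 then (Bin.bit true s.1, Bin.bit false s.2)
    else (Bin.bit false s.1, Bin.bit true s.1))

theorem foldr_addStep (l : List (Bool × Bool)) :
    l.foldr addStep (⟨0⟩, ⟨1⟩) = (⟨valL (l.map Prod.fst) + valL (l.map Prod.snd)⟩,
      ⟨valL (l.map Prod.fst) + valL (l.map Prod.snd) + 1⟩) := by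
  induction l with
  | nil => rfl
  | cons p l ih =>
    rw [List.foldr_cons, ih]
    obtain ⟨b, c⟩ := p
    cases b <;> cases c <;>
      simp [addStep, Bin.bit, Nat.bit_val, valL_cons] <;> omega

/-- binary addition -/
def Bin.add (x y : Bin) : Bin := ⟨x.val + y.val⟩

@[fun_prop] theorem pt_binAdd {f g : α → Bin} (hf : PT f) (hg : PT g) :
    PT (fun a => Bin.add (f a) (g a)) := by
  have hz := pt_zipBits hf hg
  have := pt_foldr (f := fun _ => addStep) (by unfold addStep; fun_prop) hz
    (PT.const ((⟨0⟩, ⟨1⟩) : Bin × Bin))
    (B := fun a => 3 * ((zipBits (f a) (g a)).length + 1) + 1)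
    (((PB.const 3).mul (hz.pb_length.add (PB.const 1))).add (PB.const 1)) (fun a k => by
      rw [foldr_addStep, sz_prod]
      set l := (zipBits (f a) (g a)).drop k
      have h1 := valL_lt (l.map Prod.fst)
      have h2 := valL_lt (l.map Prod.snd)
      simp only [List.length_map] at h1 h2
      have h3 : l.length ≤ (zipBits (f a) (g a)).length := by simp [l]
      have h4 := sz_bin_le (b := ⟨valL (l.map Prod.fst) + valL (l.map Prod.snd)⟩)
        (k := l.length + 1) (by rw [pow_succ]; dsimp only; omega)
      have h5 := sz_bin_le (b := ⟨valL (l.map Prod.fst) + valL (l.map Prod.snd) + 1⟩)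
        (k := l.length + 1) (by rw [pow_succ]; dsimp only; omega)
      omega)
  exact this.fst.congr (fun a => by rw [foldr_addStep, zipBits_fst, zipBits_snd]; rfl)

/-- one step of multiplication from the highest bit -/
def mulStep (x : Bin) (b : Bool) (s : Bin) : Bin :=
  bif b then Bin.add (Bin.bit false s) x else Bin.bit false s

theorem foldr_mulStep (x : Bin) (l : List Bool) :
    l.foldr (mulStep x) ⟨0⟩ = ⟨x.val * valL l⟩ := by
  induction l with
  | nil => rfl
  | cons b l ih =>
    rw [List.foldr_cons, ih]
    cases b <;> simp [mulStep, Bin.bit, Bin.add, Nat.bit_val, valL_cons] <;> ring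

/-- binary multiplication -/
def Bin.mul (x y : Bin) : Bin := ⟨x.val * y.val⟩

@[fun_prop] theorem pt_binMul {f g : α → Bin} (hf : PT f) (hg : PT g) :
    PT (fun a => Bin.mul (f a) (g a)) := by
  have := pt_foldr (f := fun a => mulStep (f a)) (by unfold mulStep; fun_prop) (pt_binBits hg)
    (PT.const (⟨0⟩ : Bin)) (B := fun a => (f a).val.bits.length + (g a).val.bits.length)
    ((pt_binBits hf).pb_length.add (pt_binBits hg).pb_length) (fun a k => by
      rw [foldr_mulStep]
      apply sz_bin_le
      have h1 := valL_lt ((g a).val.bits.drop k)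
      have h2 := valL_lt (f a).val.bits
      rw [valL_bits] at h2
      have h3 : 2 ^ ((g a).val.bits.drop k).length ≤ 2 ^ (g a).val.bits.length :=
        Nat.pow_le_pow_right (by omega) (by simp)
      rw [pow_add]
      exact Nat.mul_lt_mul'' h2 (lt_of_lt_of_le h1 h3))
  exact this.congr (fun a => by rw [foldr_mulStep, valL_bits]; rfl)

/-- one step of comparison from the highest bit -/
def cmpStep (p : Bool × Bool) (s : Bool × Bool) : Bool × Bool :=
  (s.1 || (s.2 && (!p.1 && p.2)), s.2 && ((p.1 && p.2) || (!p.1 && !p.2)))

theorem foldr_cmpStep (l : List (Bool × Bool)) :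
    l.foldr cmpStep (false, true) = (decide (valL (l.map Prod.fst) < valL (l.map Prod.snd)),
      decide (valL (l.map Prod.fst) = valL (l.map Prod.snd))) := by
  induction l with
  | nil => rfl
  | cons p l ih =>
    rw [List.foldr_cons, ih]
    obtain ⟨b, c⟩ := p
    cases b <;> cases c <;>
      simp only [cmpStep, List.map_cons, valL_cons, Prod.mk.injEq] <;>
      constructor <;> rw [Bool.eq_iff_iff] <;> simp <;> omega

@[fun_prop] theorem pt_binLt {f g : α → Bin} {i : ∀ a, Decidable ((f a).val < (g a).val)}
    (hf : PT f) (hg : PT g) : PT (fun a => @decide ((f a).val < (g a).val) (i a)) := by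
  have := pt_foldr (f := fun _ => cmpStep) (by unfold cmpStep; fun_prop) (pt_zipBits hf hg)
    (PT.const ((false, true) : Bool × Bool)) (PB.const 4) (fun a k => by
      rw [foldr_cmpStep]; simp)
  exact this.fst.congr (fun a => by rw [foldr_cmpStep, zipBits_fst, zipBits_snd]; simp)

/-- binary minimum -/
def Bin.min (x y : Bin) : Bin := ⟨Min.min x.val y.val⟩

@[fun_prop] theorem pt_binMin {f g : α → Bin} (hf : PT f) (hg : PT g) :
    PT (fun a => Bin.min (f a) (g a)) := by
  refine (PT.cond (pt_binLt (i := fun _ => inferInstance) hf hg) hf hg).congr (fun a => ?_)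
  by_cases h : (f a).val < (g a).val
  · simp [h, Bin.min, h.le]
  · simp [h, Bin.min, not_lt.mp h]

@[fun_prop] theorem pt_min {f g : α → ℕ} (hf : PT f) (hg : PT g) :
    PT (fun a => min (f a) (g a)) :=
  (hf.sub (hf.sub hg)).congr (fun a => by omega)

/-- unary to binary -/
@[fun_prop] theorem pt_ofUnary {f : α → ℕ} (hf : PT f) : PT (fun a => Bin.mk (f a)) := by
  have key : ∀ i : ℕ, (fun x : Bin => Bin.add x ⟨1⟩)^[i] ⟨0⟩ = ⟨i⟩ := by
    intro i
    induction i with
    | zero => rfl
    | succ i ih => rw [Function.iterate_succ_apply', ih]; rfl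
  have h1 : PT (fun x : Bin => Bin.add x ⟨1⟩) := pt_binAdd PT.id (PT.const _)
  exact (PT.iter h1 hf (PT.const ⟨0⟩) hf.pb (fun a i hi => by
    rw [key]
    exact (sz_bin_le Nat.lt_two_pow_self).trans hi)).congr (fun a => key _)

/-- binary to unary, capped -/
def Bin.cap (x : Bin) (c : ℕ) : ℕ := Min.min x.val c

@[fun_prop] theorem pt_cap {f : α → Bin} {c : α → ℕ} (hf : PT f) (hc : PT c) :
    PT (fun a => Bin.cap (f a) (c a)) := by
  have key : ∀ (c : ℕ) (l : List Bool),
      l.foldr (fun b u => min (2 * u + bif b then 1 else 0) c) 0 = min (valL l) c := by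
    intro c l
    induction l with
    | nil => simp
    | cons b l ih =>
      rw [List.foldr_cons, ih, valL_cons]
      cases b <;> simp <;> omega
  have := pt_foldr (f := fun a b u => min (2 * u + bif b then 1 else 0) (c a)) (by fun_prop)
    (pt_binBits hf) (PT.const 0) hc.pb (fun a k => by rw [key]; simp)
  exact this.congr (fun a => by rw [key, valL_bits]; rfl)

end Pool.Agent.MP_a6d740_lc
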