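import Mathlib

set_option autoImplicit false

namespace Pool.Agent.MP_a6d740_lc

/-- One step of the growth dynamics with zero-set `Z` on the Hamming rectangle with vertex set
`[0,n-1] × [0,m-1]`. -/
def step (Z : YoungDiagram) (m n : ℕ) (A : Finset (Fin n × Fin m)) : Finset (Fin n × Fin m) :=
  A ∪ Finset.univ.filter fun v => v ∉ A ∧
    ((A.filter fun u => u ≠ v ∧ u.2 = v.2).card, (A.filter fun u => u ≠ v ∧ u.1 = v.1).card) ∉ Z

/-- The Young domination number with latency `L`. -/
noncomputable def gamma (L : ℕ) (Z : YoungDiagram) (m n : ℕ) : ℕ :=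
  sInf {k | ∃ A : Finset (Fin n × Fin m), A.card = k ∧ (step Z m n)^[L] A = Finset.univ}

/-- The zero-set written as a table of `b` rows of `a` bits. -/
def table (Z : YoungDiagram) (a b : ℕ) : List (List Bool) :=
  (List.range b).map fun y => (List.range a).map fun x => decide ((x, y) ∈ Z)

end Pool.Agent.MP_a6d740_lc
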