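import Mathlib
import Pool.Agent.MP_a6d740_lc.Defs

set_option autoImplicit false

namespace Pool.Agent.MP_a6d740_lc

open Finset

/-- one step of the enhanced dynamics on row and column counts -/
def enhStep (Z : YoungDiagram) (m n : ℕ) (r c : ℕ → ℕ) (s : (ℕ → ℕ) × (ℕ → ℕ)) :
    (ℕ → ℕ) × (ℕ → ℕ) :=
  (fun y => r y + ((range n).filter fun x => (s.1 y, s.2 x) ∉ Z).card,
   fun x => c x + ((range m).filter fun y => (s.1 y, s.2 x) ∉ Z).card)

/-- enhanced dynamics -/
def enh (Z : YoungDiagram) (m n : ℕ) (r c : ℕ → ℕ) (t : ℕ) : (ℕ → ℕ) × (ℕ → ℕ) :=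
  (enhStep Z m n r c)^[t] (r, c)

theorem enh_zero (Z : YoungDiagram) (m n : ℕ) (r c : ℕ → ℕ) : enh Z m n r c 0 = (r, c) := rfl

theorem enh_succ (Z : YoungDiagram) (m n : ℕ) (r c : ℕ → ℕ) (t : ℕ) :
    enh Z m n r c (t + 1) = enhStep Z m n r c (enh Z m n r c t) :=
  Function.iterate_succ_apply' _ _ _

/-- cells not covered -/
def unc (Z : YoungDiagram) (m n : ℕ) (s : (ℕ → ℕ) × (ℕ → ℕ)) : ℕ :=
  ((range n ×ˢ range m).filter fun p => (s.1 p.2, s.2 p.1) ∈ Z).card

/-- cost of an enhancement for latency `t + 1` -/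
def cost (Z : YoungDiagram) (m n : ℕ) (r c : ℕ → ℕ) (t : ℕ) : ℕ :=
  ∑ y ∈ range m, r y + ∑ x ∈ range n, c x + unc Z m n (enh Z m n r c t)

theorem notMem_mono {Z : YoungDiagram} {p q p' q' : ℕ} (h : (p, q) ∉ Z) (h1 : p ≤ p')
    (h2 : q ≤ q') : (p', q') ∉ Z := fun h' => h (Z.up_left_mem h1 h2 h')

/-- domination along permutations -/
theorem enh_dom (Z : YoungDiagram) (m n : ℕ) (r c r' c' : ℕ → ℕ) (σ τ : Equiv.Perm ℕ)
    (hσ : ∀ y, σ y < m ↔ y < m) (hτ : ∀ x, τ x < n ↔ x < n)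
    (hr : ∀ y < m, r (σ y) ≤ r' y) (hc : ∀ x < n, c (τ x) ≤ c' x) (t : ℕ) :
    (∀ y < m, (enh Z m n r c t).1 (σ y) ≤ (enh Z m n r' c' t).1 y) ∧
    (∀ x < n, (enh Z m n r c t).2 (τ x) ≤ (enh Z m n r' c' t).2 x) := by
  induction t with
  | zero => exact ⟨hr, hc⟩
  | succ t ih =>
    rw [enh_succ, enh_succ]
    refine ⟨fun y hy => ?_, fun x hx => ?_⟩
    · refine add_le_add (hr y hy) ?_
      refine card_le_card_of_injOn (fun x => τ.symm x) ?_ (τ.symm.injective.injOn)
      intro x hx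
      simp only [coe_filter, mem_range, Set.mem_ofPred_eq] at hx ⊢
      have h1 : τ.symm x < n := by rw [← hτ]; simpa using hx.1
      refine ⟨h1, notMem_mono hx.2 (ih.1 y hy) ?_⟩
      simpa using ih.2 _ h1
    · refine add_le_add (hc x hx) ?_
      refine card_le_card_of_injOn (fun y => σ.symm y) ?_ (σ.symm.injective.injOn)
      intro y hy
      simp only [coe_filter, mem_range, Set.mem_ofPred_eq] at hy ⊢
      have h1 : σ.symm y < m := by rw [← hσ]; simpa using hy.1
      refine ⟨h1, notMem_mono hy.2 ?_ (ih.2 x hx)⟩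
      simpa using ih.1 _ h1

theorem unc_dom (Z : YoungDiagram) (m n : ℕ) (r c r' c' : ℕ → ℕ) (σ τ : Equiv.Perm ℕ)
    (hσ : ∀ y, σ y < m ↔ y < m) (hτ : ∀ x, τ x < n ↔ x < n)
    (hr : ∀ y < m, r (σ y) ≤ r' y) (hc : ∀ x < n, c (τ x) ≤ c' x) (t : ℕ) :
    unc Z m n (enh Z m n r' c' t) ≤ unc Z m n (enh Z m n r c t) := by
  have h := enh_dom Z m n r c r' c' σ τ hσ hτ hr hc t
  refine card_le_card_of_injOn (fun p => (τ p.1, σ p.2)) ?_ ?_
  · intro p hp
    simp only [coe_filter, mem_product, mem_range, Set.mem_ofPred_eq] at hp ⊢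
    exact ⟨⟨(hτ _).2 hp.1.1, (hσ _).2 hp.1.2⟩,
      Z.up_left_mem (h.1 _ hp.1.2) (h.2 _ hp.1.1) hp.2⟩
  · intro p _ q _ hpq
    simp only [Prod.mk.injEq, EmbeddingLike.apply_eq_iff_eq] at hpq
    exact Prod.ext hpq.1 hpq.2

theorem enh_le_succ (Z : YoungDiagram) (m n : ℕ) (r c : ℕ → ℕ) (t : ℕ) :
    (∀ y, (enh Z m n r c t).1 y ≤ (enh Z m n r c (t + 1)).1 y) ∧
    (∀ x, (enh Z m n r c t).2 x ≤ (enh Z m n r c (t + 1)).2 x) := by
  induction t with
  | zero => exact ⟨fun y => Nat.le_add_right _ _, fun x => Nat.le_add_right _ _⟩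
  | succ t ih =>
    have key : ∀ s s' : (ℕ → ℕ) × (ℕ → ℕ), (∀ y, s.1 y ≤ s'.1 y) → (∀ x, s.2 x ≤ s'.2 x) →
        (∀ y, (enhStep Z m n r c s).1 y ≤ (enhStep Z m n r c s').1 y) ∧
        (∀ x, (enhStep Z m n r c s).2 x ≤ (enhStep Z m n r c s').2 x) := by
      intro s s' h1 h2
      refine ⟨fun y => ?_, fun x => ?_⟩
      · refine add_le_add le_rfl (card_le_card ?_)
        intro x hx
        simp only [mem_filter] at hx ⊢
        exact ⟨hx.1, notMem_mono hx.2 (h1 y) (h2 x)⟩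
      · refine add_le_add le_rfl (card_le_card ?_)
        intro y hy
        simp only [mem_filter] at hy ⊢
        exact ⟨hy.1, notMem_mono hy.2 (h1 y) (h2 x)⟩
    have := key _ _ ih.1 ih.2
    rwa [← enh_succ, ← enh_succ] at this

theorem enh_antitone (Z : YoungDiagram) (m n : ℕ) (r c : ℕ → ℕ) (hr : Antitone r)
    (hc : Antitone c) (t : ℕ) :
    Antitone (enh Z m n r c t).1 ∧ Antitone (enh Z m n r c t).2 := by
  induction t with
  | zero => exact ⟨hr, hc⟩
  | succ t ih =>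
    rw [enh_succ]
    refine ⟨fun y y' h => ?_, fun x x' h => ?_⟩
    · refine add_le_add (hr h) (card_le_card ?_)
      intro x hx
      simp only [mem_filter] at hx ⊢
      exact ⟨hx.1, notMem_mono hx.2 (ih.1 h) le_rfl⟩
    · refine add_le_add (hc h) (card_le_card ?_)
      intro y hy
      simp only [mem_filter] at hy ⊢
      exact ⟨hy.1, notMem_mono hy.2 le_rfl (ih.2 h)⟩

theorem mem_step {Z : YoungDiagram} {m n : ℕ} {A : Finset (Fin n × Fin m)} {v : Fin n × Fin m} :
    v ∈ step Z m n A ↔ v ∈ A ∨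
      ((A.filter fun u => u ≠ v ∧ u.2 = v.2).card,
        (A.filter fun u => u ≠ v ∧ u.1 = v.1).card) ∉ Z := by
  simp only [step, mem_union, mem_filter, mem_univ, true_and]
  tauto

theorem subset_step (Z : YoungDiagram) (m n : ℕ) (A : Finset (Fin n × Fin m)) :
    A ⊆ step Z m n A := subset_union_left

theorem subset_iterate_step (Z : YoungDiagram) (m n : ℕ) (A : Finset (Fin n × Fin m)) (t : ℕ) :
    A ⊆ (step Z m n)^[t] A := by
  induction t with
  | zero => exact Subset.refl _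
  | succ t ih => rw [Function.iterate_succ_apply']; exact ih.trans (subset_step _ _ _ _)

theorem gamma_le {Z : YoungDiagram} {m n L : ℕ} (A : Finset (Fin n × Fin m))
    (h : (step Z m n)^[L] A = univ) : gamma L Z m n ≤ A.card :=
  Nat.sInf_le ⟨A, rfl, h⟩

theorem gamma_spec (L : ℕ) (Z : YoungDiagram) (m n : ℕ) :
    ∃ A : Finset (Fin n × Fin m), A.card = gamma L Z m n ∧ (step Z m n)^[L] A = univ := by
  have : {k | ∃ A : Finset (Fin n × Fin m), A.card = k ∧ (step Z m n)^[L] A = univ}.Nonempty :=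
    ⟨_, univ, rfl, eq_univ_of_forall fun v => subset_iterate_step Z m n univ L (mem_univ v)⟩
  exact Nat.sInf_mem this

theorem gamma_le_mul (L : ℕ) (Z : YoungDiagram) (m n : ℕ) : gamma L Z m n ≤ m * n := by
  have := gamma_le (Z := Z) (L := L) (univ : Finset (Fin n × Fin m))
    (eq_univ_of_forall fun v => subset_iterate_step Z m n univ L (mem_univ v))
  simpa [mul_comm] using this

theorem gamma_zero (Z : YoungDiagram) (m n : ℕ) : gamma 0 Z m n = m * n := by
  obtain ⟨A, h1, h2⟩ := gamma_spec 0 Z m n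
  rw [← h1]
  simp only [Function.iterate_zero, id_eq] at h2
  simp [h2, mul_comm]

/-- row counts of a set -/
def rowCnt {m n : ℕ} (A : Finset (Fin n × Fin m)) (y : ℕ) : ℕ :=
  (A.filter fun u => (u.2 : ℕ) = y).card

/-- column counts of a set -/
def colCnt {m n : ℕ} (A : Finset (Fin n × Fin m)) (x : ℕ) : ℕ :=
  (A.filter fun u => (u.1 : ℕ) = x).card

theorem sum_rowCnt {m n : ℕ} (A : Finset (Fin n × Fin m)) :
    ∑ y ∈ range m, rowCnt A y = A.card := by
  unfold rowCnt
  rw [← card_eq_sum_card_fiberwise (f := fun u : Fin n × Fin m => (u.2 : ℕ))]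
  intro u _
  simp

theorem sum_colCnt {m n : ℕ} (A : Finset (Fin n × Fin m)) :
    ∑ x ∈ range n, colCnt A x = A.card := by
  unfold colCnt
  rw [← card_eq_sum_card_fiberwise (f := fun u : Fin n × Fin m => (u.1 : ℕ))]
  intro u _
  simp

theorem lb_aux (Z : YoungDiagram) (m n : ℕ) (A : Finset (Fin n × Fin m)) (t : ℕ) :
    (∀ y, rowCnt ((step Z m n)^[t] A) y ≤ (enh Z m n (rowCnt A) (colCnt A) t).1 y) ∧
    (∀ x, colCnt ((step Z m n)^[t] A) x ≤ (enh Z m n (rowCnt A) (colCnt A) t).2 x) ∧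
    ∀ v ∈ (step Z m n)^[t + 1] A, v ∈ A ∨
      ((enh Z m n (rowCnt A) (colCnt A) t).1 v.2, (enh Z m n (rowCnt A) (colCnt A) t).2 v.1) ∉ Z := by
  have key : ∀ (S : Finset (Fin n × Fin m)) (s : (ℕ → ℕ) × (ℕ → ℕ)),
      (∀ y, rowCnt S y ≤ s.1 y) → (∀ x, colCnt S x ≤ s.2 x) →
      ∀ v ∈ step Z m n S, v ∈ S ∨ (s.1 v.2, s.2 v.1) ∉ Z := by
    intro S s h1 h2 v hv
    rcases mem_step.mp hv with h | h
    · exact Or.inl h
    · right
      refine notMem_mono h (le_trans (card_le_card ?_) (h1 _)) (le_trans (card_le_card ?_) (h2 _))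
      · intro u hu
        simp only [mem_filter] at hu ⊢
        exact ⟨hu.1, by rw [hu.2.2]⟩
      · intro u hu
        simp only [mem_filter] at hu ⊢
        exact ⟨hu.1, by rw [hu.2.2]⟩
  induction t with
  | zero =>
    refine ⟨fun _ => le_rfl, fun _ => le_rfl, ?_⟩
    exact key A _ (fun _ => le_rfl) (fun _ => le_rfl)
  | succ t ih =>
    have h1 : ∀ y, rowCnt ((step Z m n)^[t + 1] A) y ≤
        (enh Z m n (rowCnt A) (colCnt A) (t + 1)).1 y := by
      intro y
      rw [enh_succ]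
      set s := enh Z m n (rowCnt A) (colCnt A) t
      have : ((step Z m n)^[t + 1] A).filter (fun u => (u.2 : ℕ) = y) ⊆
          A.filter (fun u => (u.2 : ℕ) = y) ∪
            univ.filter (fun u => (u.2 : ℕ) = y ∧ (s.1 y, s.2 u.1) ∉ Z) := by
        intro u hu
        simp only [mem_filter, mem_union, mem_univ, true_and] at hu ⊢
        rcases ih.2.2 u hu.1 with h | h
        · exact Or.inl ⟨h, hu.2⟩
        · exact Or.inr ⟨hu.2, hu.2 ▸ h⟩
      refine (card_le_card this).trans ((card_union_le _ _).trans (add_le_add le_rfl ?_))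
      refine card_le_card_of_injOn (fun u => (u.1 : ℕ)) ?_ ?_
      · intro u hu
        simp only [coe_filter, mem_univ, true_and, Set.mem_ofPred_eq, mem_range] at hu ⊢
        exact ⟨u.1.2, hu.2⟩
      · intro u hu v hv huv
        simp only [coe_filter, mem_univ, true_and, Set.mem_ofPred_eq] at hu hv
        exact Prod.ext (Fin.ext huv) (Fin.ext (hu.1.trans hv.1.symm))
    have h2 : ∀ x, colCnt ((step Z m n)^[t + 1] A) x ≤
        (enh Z m n (rowCnt A) (colCnt A) (t + 1)).2 x := by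
      intro x
      rw [enh_succ]
      set s := enh Z m n (rowCnt A) (colCnt A) t
      have : ((step Z m n)^[t + 1] A).filter (fun u => (u.1 : ℕ) = x) ⊆
          A.filter (fun u => (u.1 : ℕ) = x) ∪
            univ.filter (fun u => (u.1 : ℕ) = x ∧ (s.1 u.2, s.2 x) ∉ Z) := by
        intro u hu
        simp only [mem_filter, mem_union, mem_univ, true_and] at hu ⊢
        rcases ih.2.2 u hu.1 with h | h
        · exact Or.inl ⟨h, hu.2⟩
        · exact Or.inr ⟨hu.2, hu.2 ▸ h⟩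
      refine (card_le_card this).trans ((card_union_le _ _).trans (add_le_add le_rfl ?_))
      refine card_le_card_of_injOn (fun u => (u.2 : ℕ)) ?_ ?_
      · intro u hu
        simp only [coe_filter, mem_univ, true_and, Set.mem_ofPred_eq, mem_range] at hu ⊢
        exact ⟨u.2.2, hu.2⟩
      · intro u hu v hv huv
        simp only [coe_filter, mem_univ, true_and, Set.mem_ofPred_eq] at hu hv
        exact Prod.ext (Fin.ext (hu.1.trans hv.1.symm)) (Fin.ext huv)
    refine ⟨h1, h2, fun v hv => ?_⟩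
    rw [Function.iterate_succ_apply'] at hv
    rcases key _ _ h1 h2 v hv with h | h
    · rcases ih.2.2 v h with h | h
      · exact Or.inl h
      · exact Or.inr (notMem_mono h ((enh_le_succ _ _ _ _ _ t).1 _) ((enh_le_succ _ _ _ _ _ t).2 _))
    · exact Or.inr h

/-- the uncovered cells of the enhanced dynamics of a spanning set lie in the set -/
theorem unc_le_card (Z : YoungDiagram) (m n : ℕ) (A : Finset (Fin n × Fin m)) (t : ℕ)
    (h : (step Z m n)^[t + 1] A = univ) :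
    unc Z m n (enh Z m n (rowCnt A) (colCnt A) t) ≤ A.card := by
  have h3 := (lb_aux Z m n A t).2.2
  rw [h] at h3
  rw [← card_map ⟨fun u : Fin n × Fin m => ((u.1 : ℕ), (u.2 : ℕ)), fun u v huv => by
    simp only [Prod.mk.injEq] at huv
    exact Prod.ext (Fin.ext huv.1) (Fin.ext huv.2)⟩]
  apply card_le_card
  intro p hp
  simp only [mem_filter, mem_product, mem_range] at hp
  simp only [mem_map, Function.Embedding.coeFn_mk]
  refine ⟨(⟨p.1, hp.1.1⟩, ⟨p.2, hp.1.2⟩), ?_, rfl⟩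
  rcases h3 (⟨p.1, hp.1.1⟩, ⟨p.2, hp.1.2⟩) (mem_univ _) with h | h
  · exact h
  · exact (h hp.2).elim

end Pool.Agent.MP_a6d740_lc
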