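import Mathlib
import Pool.Agent.MP_a6d740_lc.Enh

set_option autoImplicit false

namespace Pool.Agent.MP_a6d740_lc

open Finset

theorem row_count_ge {m n : ℕ} (S : Finset (Fin n × Fin m)) (v : Fin n × Fin m) (k : ℕ)
    (P : Finset ℕ) (hk : v.1 + k < n) (hP : ∀ x ∈ P, x < v.1)
    (hPS : ∀ x : Fin n, (x : ℕ) ∈ P → (x, v.2) ∈ S)
    (hQS : ∀ x : Fin n, n ≤ x + k → (x, v.2) ∈ S) :
    k + P.card ≤ (S.filter fun u => u ≠ v ∧ u.2 = v.2).card := by
  have hdisj : Disjoint (Ico (n - k) n) P := by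
    rw [disjoint_left]
    intro x hx hxP
    have := hP x hxP
    simp only [mem_Ico] at hx
    omega
  have hcard : (Ico (n - k) n).card = k := by simp; omega
  have : k + P.card = (Ico (n - k) n ∪ P).card := by rw [card_union_of_disjoint hdisj, hcard]
  rw [this]
  refine le_trans (card_le_card ?_) (card_image_le (f := fun u : Fin n × Fin m => (u.1 : ℕ)))
  intro x hx
  simp only [mem_union, mem_Ico] at hx
  simp only [mem_image, mem_filter]
  have hv := v.1.2
  rcases hx with hx | hx
  · refine ⟨(⟨x, hx.2⟩, v.2), ⟨hQS _ (by simp; omega), ?_, rfl⟩, rfl⟩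
    intro h
    have := congrArg (fun u : Fin n × Fin m => (u.1 : ℕ)) h
    simp at this
    omega
  · have hx' := hP x hx
    refine ⟨(⟨x, by omega⟩, v.2), ⟨hPS _ hx, ?_, rfl⟩, rfl⟩
    intro h
    have := congrArg (fun u : Fin n × Fin m => (u.1 : ℕ)) h
    simp at this
    omega

theorem col_count_ge {m n : ℕ} (S : Finset (Fin n × Fin m)) (v : Fin n × Fin m) (k : ℕ)
    (P : Finset ℕ) (hk : v.2 + k < m) (hP : ∀ y ∈ P, y < v.2)
    (hPS : ∀ y : Fin m, (y : ℕ) ∈ P → (v.1, y) ∈ S)
    (hQS : ∀ y : Fin m, m ≤ y + k → (v.1, y) ∈ S) :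
    k + P.card ≤ (S.filter fun u => u ≠ v ∧ u.1 = v.1).card := by
  have hdisj : Disjoint (Ico (m - k) m) P := by
    rw [disjoint_left]
    intro x hx hxP
    have := hP x hxP
    simp only [mem_Ico] at hx
    omega
  have hcard : (Ico (m - k) m).card = k := by simp; omega
  have : k + P.card = (Ico (m - k) m ∪ P).card := by rw [card_union_of_disjoint hdisj, hcard]
  rw [this]
  refine le_trans (card_le_card ?_) (card_image_le (f := fun u : Fin n × Fin m => (u.2 : ℕ)))
  intro x hx
  simp only [mem_union, mem_Ico] at hx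
  simp only [mem_image, mem_filter]
  have hv := v.2.2
  rcases hx with hx | hx
  · refine ⟨(v.1, ⟨x, hx.2⟩), ⟨hQS _ (by simp; omega), ?_, rfl⟩, rfl⟩
    intro h
    have := congrArg (fun u : Fin n × Fin m => (u.2 : ℕ)) h
    simp at this
    omega
  · have hx' := hP x hx
    refine ⟨(v.1, ⟨x, by omega⟩), ⟨hPS _ hx, ?_, rfl⟩, rfl⟩
    intro h
    have := congrArg (fun u : Fin n × Fin m => (u.2 : ℕ)) h
    simp at this
    omega

theorem ub_aux (Z : YoungDiagram) (m n : ℕ) (r c : ℕ → ℕ) (hr : Antitone r) (hc : Antitone c)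
    (A : Finset (Fin n × Fin m)) (h1 : ∀ v : Fin n × Fin m, n ≤ v.1 + r v.2 → v ∈ A)
    (h2 : ∀ v : Fin n × Fin m, m ≤ v.2 + c v.1 → v ∈ A) (s : ℕ) :
    ∀ v : Fin n × Fin m, ((enh Z m n r c s).1 v.2, (enh Z m n r c s).2 v.1) ∉ Z →
      v ∈ (step Z m n)^[s + 1] A := by
  induction s with
  | zero =>
    intro v hv
    refine mem_step.mpr ?_
    by_cases hvA : v ∈ A
    · exact Or.inl hvA
    right
    have a1 : v.1 + r v.2 < n := by by_contra h; exact hvA (h1 v (not_lt.mp h))
    have a2 : v.2 + c v.1 < m := by by_contra h; exact hvA (h2 v (not_lt.mp h))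
    refine notMem_mono hv ?_ ?_
    · simpa [enh_zero] using row_count_ge A v (r v.2) ∅ a1 (by simp) (by simp) (fun x hx => h1 (x, v.2) hx)
    · simpa [enh_zero] using col_count_ge A v (c v.1) ∅ a2 (by simp) (by simp) (fun y hy => h2 (v.1, y) hy)
  | succ s ih =>
    intro v hv
    rw [Function.iterate_succ_apply']
    refine mem_step.mpr ?_
    by_cases hvA : v ∈ (step Z m n)^[s + 1] A
    · exact Or.inl hvA
    right
    have hsub := subset_iterate_step Z m n A (s + 1)
    have a1 : v.1 + r v.2 < n := by by_contra h; exact hvA (hsub (h1 v (not_lt.mp h)))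
    have a2 : v.2 + c v.1 < m := by by_contra h; exact hvA (hsub (h2 v (not_lt.mp h)))
    have hanti := enh_antitone Z m n r c hr hc s
    rw [enh_succ] at hv
    refine notMem_mono hv ?_ ?_
    · refine row_count_ge _ v (r v.2) _ a1 ?_ ?_ (fun x hx => hsub (h1 (x, v.2) hx))
      · intro x hx
        simp only [mem_filter] at hx
        by_contra hlt
        exact hvA (ih v (notMem_mono hx.2 le_rfl (hanti.2 (not_lt.mp hlt))))
      · intro x hx
        simp only [mem_filter] at hx
        exact ih (x, v.2) hx.2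
    · refine col_count_ge _ v (c v.1) _ a2 ?_ ?_ (fun y hy => hsub (h2 (v.1, y) hy))
      · intro y hy
        simp only [mem_filter] at hy
        by_contra hlt
        exact hvA (ih v (notMem_mono hy.2 (hanti.1 (not_lt.mp hlt)) le_rfl))
      · intro y hy
        simp only [mem_filter] at hy
        exact ih (v.1, y) hy.2

/-- a sorted enhancement can be realised by an initial set -/
theorem gamma_le_cost (Z : YoungDiagram) (m n : ℕ) (r c : ℕ → ℕ) (hr : Antitone r)
    (hc : Antitone c) (t : ℕ) : gamma (t + 1) Z m n ≤ cost Z m n r c t := by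
  let A1 : Finset (Fin n × Fin m) := univ.filter fun v => n ≤ v.1 + r v.2
  let A2 : Finset (Fin n × Fin m) := univ.filter fun v => m ≤ v.2 + c v.1
  let A3 : Finset (Fin n × Fin m) := univ.filter fun v =>
    ((enh Z m n r c t).1 v.2, (enh Z m n r c t).2 v.1) ∈ Z
  have hspan : (step Z m n)^[t + 1] (A1 ∪ A2 ∪ A3) = univ := by
    apply eq_univ_of_forall
    intro v
    by_cases hv : ((enh Z m n r c t).1 v.2, (enh Z m n r c t).2 v.1) ∈ Z
    · apply subset_iterate_step
      simp [A3, hv]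
    · refine ub_aux Z m n r c hr hc _ ?_ ?_ t v hv
      · intro v hv; simp [A1, hv]
      · intro v hv; simp [A2, hv]
  refine (gamma_le _ hspan).trans ?_
  refine (card_union_le _ _).trans (add_le_add ((card_union_le _ _).trans (add_le_add ?_ ?_)) ?_)
  · rw [← sum_rowCnt]
    refine sum_le_sum fun y _ => ?_
    have : (Ico (n - r y) n).card ≤ r y := by simp; omega
    refine le_trans ?_ this
    refine card_le_card_of_injOn (fun u => (u.1 : ℕ)) ?_ ?_
    · intro u hu
      simp only [A1, coe_filter, mem_filter, mem_univ, true_and, Set.mem_ofPred_eq, coe_Ico,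
        Set.mem_Ico] at hu ⊢
      have := u.1.2
      rw [hu.2] at hu
      omega
    · intro u hu v hv huv
      simp only [coe_filter, Set.mem_ofPred_eq] at hu hv
      exact Prod.ext (Fin.ext huv) (Fin.ext (hu.2.trans hv.2.symm))
  · rw [← sum_colCnt]
    refine sum_le_sum fun x _ => ?_
    have : (Ico (m - c x) m).card ≤ c x := by simp; omega
    refine le_trans ?_ this
    refine card_le_card_of_injOn (fun u => (u.2 : ℕ)) ?_ ?_
    · intro u hu
      simp only [A2, coe_filter, mem_filter, mem_univ, true_and, Set.mem_ofPred_eq, coe_Ico,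
        Set.mem_Ico] at hu ⊢
      have := u.2.2
      rw [hu.2] at hu
      omega
    · intro u hu v hv huv
      simp only [coe_filter, Set.mem_ofPred_eq] at hu hv
      exact Prod.ext (Fin.ext (hu.2.trans hv.2.symm)) (Fin.ext huv)
  · refine card_le_card_of_injOn (fun u => ((u.1 : ℕ), (u.2 : ℕ))) ?_ ?_
    · intro u hu
      simp only [A3, coe_filter, mem_univ, true_and, Set.mem_ofPred_eq, mem_product,
        mem_range] at hu ⊢
      exact ⟨⟨u.1.2, u.2.2⟩, hu⟩
    · intro u _ v _ huv
      simp only [Prod.mk.injEq] at huv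
      exact Prod.ext (Fin.ext huv.1) (Fin.ext huv.2)

/-- sorting a function on an initial segment -/
theorem exists_sort (m : ℕ) (r : ℕ → ℕ) :
    ∃ σ : Equiv.Perm ℕ, (∀ y, σ y < m ↔ y < m) ∧
      ∀ y y', y ≤ y' → y' < m → r (σ y') ≤ r (σ y) := by
  let f : Fin m → ℕᵒᵈ := fun i => OrderDual.toDual (r i)
  let π : Equiv.Perm (Fin m) := Tuple.sort f
  have hπ : Monotone (f ∘ π) := Tuple.monotone_sort f
  let e : Fin m ≃ {y : ℕ // y < m} := Fin.equivSubtype
  refine ⟨π.extendDomain e, ?_, ?_⟩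
  · intro y
    by_cases h : y < m
    · rw [Equiv.Perm.extendDomain_apply_subtype π e h]
      exact ⟨fun _ => h, fun _ => (e _).2⟩
    · rw [Equiv.Perm.extendDomain_apply_not_subtype π e h]
  · intro y y' hyy hy'
    have hy : y < m := lt_of_le_of_lt hyy hy'
    rw [Equiv.Perm.extendDomain_apply_subtype π e hy,
      Equiv.Perm.extendDomain_apply_subtype π e hy']
    exact hπ (show (⟨y, hy⟩ : Fin m) ≤ ⟨y', hy'⟩ from hyy)

theorem sum_perm (m : ℕ) (r : ℕ → ℕ) (σ : Equiv.Perm ℕ) (hσ : ∀ y, σ y < m ↔ y < m) :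
    ∑ y ∈ range m, r (σ y) = ∑ y ∈ range m, r y := by
  refine sum_equiv σ ?_ (fun _ _ => rfl)
  intro y
  simp [hσ]

/-- every spanning set yields sorted enhancements of no larger size -/
theorem exists_sorted (Z : YoungDiagram) (m n t : ℕ) :
    ∃ r c : ℕ → ℕ, Antitone r ∧ Antitone c ∧ (∀ y, m ≤ y → r y = 0) ∧ (∀ x, n ≤ x → c x = 0) ∧
      ∑ y ∈ range m, r y = gamma (t + 1) Z m n ∧ ∑ x ∈ range n, c x = gamma (t + 1) Z m n ∧
      unc Z m n (enh Z m n r c t) ≤ gamma (t + 1) Z m n := by
  obtain ⟨A, hA, hspan⟩ := gamma_spec (t + 1) Z m n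
  obtain ⟨σ, hσ, hσ'⟩ := exists_sort m (rowCnt A)
  obtain ⟨τ, hτ, hτ'⟩ := exists_sort n (colCnt A)
  refine ⟨fun y => if y < m then rowCnt A (σ y) else 0,
    fun x => if x < n then colCnt A (τ x) else 0, ?_, ?_, ?_, ?_, ?_, ?_, ?_⟩
  · intro y y' h
    dsimp only
    split_ifs with h1 h2
    · exact hσ' y y' h h1
    · omega
    all_goals exact Nat.zero_le _
  · intro y y' h
    dsimp only
    split_ifs with h1 h2
    · exact hτ' y y' h h1
    · omega
    all_goals exact Nat.zero_le _
  · intro y hy; simp [not_lt.mpr hy]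
  · intro y hy; simp [not_lt.mpr hy]
  · rw [← hA, ← sum_rowCnt, ← sum_perm m (rowCnt A) σ hσ]
    exact sum_congr rfl fun y hy => if_pos (mem_range.mp hy)
  · rw [← hA, ← sum_colCnt, ← sum_perm n (colCnt A) τ hτ]
    exact sum_congr rfl fun y hy => if_pos (mem_range.mp hy)
  · rw [← hA]
    refine le_trans (unc_dom Z m n (rowCnt A) (colCnt A) _ _ σ τ hσ hτ ?_ ?_ t)
      (unc_le_card Z m n A t hspan)
    · intro y hy; simp [hy]
    · intro y hy; simp [hy]

end Pool.Agent.MP_a6d740_lc
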