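import Mathlib
import Pool.Agent.MP_a6d740_lc.Upper

set_option autoImplicit false

namespace Pool.Agent.MP_a6d740_lc

open Finset

/-- the dyadic staircase coded by a lattice path -/
def decF : List Bool → ℕ → ℕ → ℕ → ℕ
  | [], _, _, _ => 0
  | false :: w, v, l, y => decF w (v / 2) l y
  | true :: w, v, l, y => if y < l then v else decF w v (2 * l) (y - l)

theorem decF_le (w : List Bool) : ∀ v l y, decF w v l y ≤ v := by
  induction w with
  | nil => intro v l y; exact Nat.zero_le _
  | cons b w ih =>
    intro v l y
    cases b with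
    | false => exact (ih _ _ _).trans (Nat.div_le_self _ _)
    | true =>
      simp only [decF]
      split_ifs
      · exact le_rfl
      · exact ih _ _ _

theorem decF_antitone (w : List Bool) : ∀ v l, Antitone (decF w v l) := by
  induction w with
  | nil => intro v l y y' _; exact le_rfl
  | cons b w ih =>
    intro v l y y' h
    cases b with
    | false => exact ih _ _ h
    | true =>
      simp only [decF]
      split_ifs with h1 h2 h2
      · exact le_rfl
      · omega
      · exact decF_le _ _ _ _
      · exact ih _ _ (by omega)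

theorem round_aux (k : ℕ) : ∀ (i j v l : ℕ) (r : ℕ → ℕ), Antitone r → r 0 ≤ v → v < 2 ^ i →
    (∀ y, l * (2 ^ j - 1) ≤ y → r y = 0) → i + j ≤ k →
    ∃ w : List Bool, w.length = k ∧ (∀ y, r y ≤ decF w v l y) ∧
      ∀ M, ∑ y ∈ range (M + 1), decF w v l y ≤ 2 * l * r 0 + 4 * ∑ y ∈ range M, r (y + 1) := by
  induction k with
  | zero =>
    intro i j v l r hr h0 hv _ hk
    have hi : i = 0 := by omega
    subst hi
    refine ⟨[], rfl, fun y => ?_, fun M => by simp [decF]⟩
    have := hr (Nat.zero_le y)
    simp only [decF]
    omega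
  | succ k ih =>
    intro i j v l r hr h0 hv hS hk
    by_cases hcase : r 0 ≤ v / 2
    · have : ∃ w : List Bool, w.length = k ∧ (∀ y, r y ≤ decF w (v / 2) l y) ∧
          ∀ M, ∑ y ∈ range (M + 1), decF w (v / 2) l y ≤
            2 * l * r 0 + 4 * ∑ y ∈ range M, r (y + 1) := by
        rcases i with _ | i
        · refine ih 0 0 (v / 2) l r hr hcase (by omega) (fun y _ => ?_) (by omega)
          have := hr (Nat.zero_le y)
          omega
        · exact ih i j (v / 2) l r hr hcase (by rw [pow_succ] at hv; omega) hS (by omega)
      obtain ⟨w, h1, h2, h3⟩ := this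
      exact ⟨false :: w, by simp [h1], h2, h3⟩
    · have hj : j ≠ 0 := by
        rintro rfl
        have := hS 0 (by simp)
        omega
      obtain ⟨j, rfl⟩ := Nat.exists_eq_succ_of_ne_zero hj
      obtain ⟨w, h1, h2, h3⟩ := ih i j v (2 * l) (fun y => r (y + l))
        (fun y y' h => hr (by omega)) ((hr (Nat.zero_le _)).trans h0) hv
        (fun y hy => hS _ (by
          have h2 : 1 ≤ 2 ^ j := Nat.one_le_two_pow
          obtain ⟨q, hq⟩ := Nat.exists_eq_add_of_le h2
          have e1 : 2 ^ j - 1 = q := by omega
          have e2 : 2 ^ (j + 1) - 1 = 2 * q + 1 := by rw [pow_succ]; omega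
          rw [e1] at hy
          rw [Nat.succ_eq_add_one, e2]
          nlinarith)) (by omega)
      refine ⟨true :: w, by simp [h1], fun y => ?_, fun M => ?_⟩
      · simp only [decF]
        split_ifs with h
        · exact (hr (Nat.zero_le _)).trans h0
        · have := h2 (y - l)
          rwa [Nat.sub_add_cancel (not_lt.mp h)] at this
      · have hv2 : v ≤ 2 * r 0 := by omega
        by_cases hM : M + 1 ≤ l
        · have : ∑ y ∈ range (M + 1), decF (true :: w) v l y ≤ ∑ y ∈ range (M + 1), v :=
            sum_le_sum fun y _ => decF_le _ _ _ _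
          simp only [sum_const, card_range, smul_eq_mul] at this
          have h5 : (M + 1) * v ≤ l * (2 * r 0) := Nat.mul_le_mul hM hv2
          have h6 : l * (2 * r 0) = 2 * l * r 0 := by ring
          omega
        · obtain ⟨M', rfl⟩ : ∃ M', M = l + M' := ⟨M - l, by omega⟩
          rw [show l + M' + 1 = l + (M' + 1) by ring, sum_range_add _ l (M' + 1),
            sum_range_add _ l M']
          have e1 : ∑ y ∈ range l, decF (true :: w) v l y = l * v := by
            rw [sum_congr rfl (g := fun _ => v)]
            · simp
            · intro y hy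
              simp [decF, mem_range.mp hy]
          have e2 : ∑ y ∈ range (M' + 1), decF (true :: w) v l (l + y) =
              ∑ y ∈ range (M' + 1), decF w v (2 * l) y :=
            sum_congr rfl fun y _ => by simp [decF]
          have e3 : l * r l ≤ ∑ y ∈ range l, r (y + 1) := by
            have : ∑ _y ∈ range l, r l ≤ ∑ y ∈ range l, r (y + 1) :=
              sum_le_sum fun y hy => hr (mem_range.mp hy)
            simpa using this
          have e4 : ∑ y ∈ range M', r (y + 1 + l) = ∑ y ∈ range M', r (l + y + 1) :=
            sum_congr rfl fun y _ => by congr 1; ring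
          have h4 := h3 M'
          simp only [zero_add] at h4
          rw [e1, e2, ← e4]
          have h5 : l * v ≤ l * (2 * r 0) := Nat.mul_le_mul le_rfl hv2
          have h6 : l * (2 * r 0) = 2 * l * r 0 := by ring
          have h7 : 2 * (2 * l) * r l = 4 * (l * r l) := by ring
          omega

/-- the candidate enhancements -/
def cand (N : ℕ) (w : List Bool) (y : ℕ) : ℕ := if y < N then decF w N 1 y else 0

theorem cand_antitone (N : ℕ) (w : List Bool) : Antitone (cand N w) := by
  intro y y' h
  simp only [cand]
  split_ifs with h1 h2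
  · exact decF_antitone w N 1 h
  · omega
  all_goals exact Nat.zero_le _

theorem cand_zero (N : ℕ) (w : List Bool) (y : ℕ) (h : N ≤ y) : cand N w y = 0 :=
  if_neg (not_lt.mpr h)

theorem exists_cand (N K m : ℕ) (hK : N < 2 ^ K) (r : ℕ → ℕ) (hr : Antitone r)
    (hm : ∀ y, m ≤ y → r y = 0) (hN : ∑ y ∈ range m, r y ≤ N) :
    ∃ w : List Bool, w.length = 2 * K ∧ (∀ y, r y ≤ cand N w y) ∧
      ∑ y ∈ range m, cand N w y ≤ 4 * ∑ y ∈ range m, r y := by
  have hz : ∀ y, N ≤ y → r y = 0 := by
    intro y hy
    by_contra hne
    have hym : y < m := by by_contra h; exact hne (hm y (not_lt.mp h))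
    have h1 : ∑ _z ∈ range (y + 1), 1 ≤ ∑ z ∈ range (y + 1), r z :=
      sum_le_sum fun z hz => by
        have := hr (show z ≤ y from Nat.lt_succ_iff.mp (mem_range.mp hz))
        omega
    have h2 : ∑ z ∈ range (y + 1), r z ≤ ∑ z ∈ range m, r z :=
      sum_le_sum_of_subset (range_subset_range.mpr hym)
    simp only [sum_const, card_range, smul_eq_mul, mul_one] at h1
    omega
  have h0 : r 0 ≤ N := by
    rcases m with _ | m
    · rw [hm 0 le_rfl]; exact Nat.zero_le _
    · rw [sum_range_succ'] at hN; omega
  obtain ⟨w, h1, h2, h3⟩ := round_aux (2 * K) K K N 1 r hr h0 hK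
    (fun y hy => hz y (by omega)) (by omega)
  refine ⟨w, h1, fun y => ?_, ?_⟩
  · simp only [cand]
    split_ifs with h
    · exact h2 y
    · rw [hz y (not_lt.mp h)]
  · rcases m with _ | m
    · simp
    · have h4 : ∑ y ∈ range (m + 1), cand N w y ≤ ∑ y ∈ range (m + 1), decF w N 1 y :=
        sum_le_sum fun y _ => by
          simp only [cand]
          split_ifs
          · exact le_rfl
          · exact Nat.zero_le _
      have := h3 m
      rw [sum_range_succ' r]
      omega

end Pool.Agent.MP_a6d740_lc
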