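import Mathlib
import Pool.Agent.MP_a6d740_lc.Round

set_option autoImplicit false

namespace Pool.Agent.MP_a6d740_lc

open Finset

theorem enh_const (Z : YoungDiagram) (m n P : ℕ) (r c : ℕ → ℕ) (hr : ∀ y, P ≤ y → r y = 0)
    (hc : ∀ x, P ≤ x → c x = 0) (t : ℕ) :
    (∀ y, P ≤ y → (enh Z m n r c t).1 y = (enh Z m n r c t).1 P) ∧
    (∀ x, P ≤ x → (enh Z m n r c t).2 x = (enh Z m n r c t).2 P) := by
  induction t with
  | zero =>
    exact ⟨fun y hy => (hr y hy).trans (hr P le_rfl).symm,
      fun x hx => (hc x hx).trans (hc P le_rfl).symm⟩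
  | succ t ih =>
    rw [enh_succ]
    refine ⟨fun y hy => ?_, fun x hx => ?_⟩
    · simp only [enhStep, hr y hy, hr P le_rfl, ih.1 y hy]
    · simp only [enhStep, hc x hx, hc P le_rfl, ih.2 x hx]

theorem mem_iff_of_min {Z : YoungDiagram} {a b : ℕ} (hZ : ∀ p ∈ Z, p.1 < a ∧ p.2 < b)
    {p q p' q' : ℕ} (h1 : min p a = min p' a) (h2 : min q b = min q' b) :
    (p, q) ∈ Z ↔ (p', q') ∈ Z := by
  constructor
  · intro h
    have := hZ _ h
    simp only at this
    have e1 : p' = p := by omega
    have e2 : q' = q := by omega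
    rwa [e1, e2]
  · intro h
    have := hZ _ h
    simp only at this
    have e1 : p = p' := by omega
    have e2 : q = q' := by omega
    rwa [e1, e2]

theorem card_filter_trunc (n n' P a : ℕ) (Q : ℕ → Prop) [DecidablePred Q] (hn : n' ≤ n)
    (hn' : n' = n ∨ P + a ≤ n') (hQ : ∀ x, P ≤ x → (Q x ↔ Q P)) (k : ℕ) :
    min (k + ((range n).filter Q).card) a = min (k + ((range n').filter Q).card) a := by
  rcases hn' with rfl | hn'
  · rfl
  by_cases hP : Q P
  · have h1 : a ≤ ((range n').filter Q).card := by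
      have : Ico P (P + a) ⊆ (range n').filter Q := by
        intro x hx
        simp only [mem_Ico, mem_filter, mem_range] at hx ⊢
        exact ⟨by omega, (hQ x hx.1).2 hP⟩
      simpa using card_le_card this
    have h2 : ((range n').filter Q).card ≤ ((range n).filter Q).card :=
      card_le_card (filter_subset_filter _ (range_subset_range.mpr hn))
    omega
  · have : (range n).filter Q = (range n').filter Q := by
      ext x
      simp only [mem_filter, mem_range]
      refine ⟨fun h => ⟨?_, h.2⟩, fun h => ⟨by omega, h.2⟩⟩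
      by_contra hx
      exact hP ((hQ x (by omega)).1 h.2)
    rw [this]

theorem enh_trunc (Z : YoungDiagram) (a b m n m' n' P : ℕ) (hZ : ∀ p ∈ Z, p.1 < a ∧ p.2 < b)
    (r c : ℕ → ℕ) (hr : ∀ y, P ≤ y → r y = 0) (hc : ∀ x, P ≤ x → c x = 0)
    (hm : m' ≤ m) (hm' : m' = m ∨ P + b ≤ m') (hn : n' ≤ n) (hn' : n' = n ∨ P + a ≤ n') (t : ℕ) :
    (∀ y, min ((enh Z m n r c t).1 y) a = min ((enh Z m' n' r c t).1 y) a) ∧
    (∀ x, min ((enh Z m n r c t).2 x) b = min ((enh Z m' n' r c t).2 x) b) := by
  induction t with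
  | zero => exact ⟨fun _ => rfl, fun _ => rfl⟩
  | succ t ih =>
    have hcst := enh_const Z m n P r c hr hc t
    rw [enh_succ, enh_succ]
    refine ⟨fun y => ?_, fun x => ?_⟩
    · simp only [enhStep]
      rw [card_filter_trunc n n' P a _ hn hn' (fun x hx => by rw [hcst.2 x hx])]
      congr 3
      exact filter_congr fun x _ => not_congr (mem_iff_of_min hZ (ih.1 y) (ih.2 x))
    · simp only [enhStep]
      rw [card_filter_trunc m m' P b _ hm hm' (fun y hy => by rw [hcst.1 y hy])]
      congr 3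
      exact filter_congr fun y _ => not_congr (mem_iff_of_min hZ (ih.1 y) (ih.2 x))

theorem sum_trunc (m m' P : ℕ) (r : ℕ → ℕ) (hr : ∀ y, P ≤ y → r y = 0) (hm : m' ≤ m)
    (hm' : m' = m ∨ P ≤ m') : ∑ y ∈ range m', r y = ∑ y ∈ range m, r y := by
  rcases hm' with rfl | hm'
  · rfl
  refine sum_subset (range_subset_range.mpr hm) fun y _ hy => hr y ?_
  simp only [mem_range] at hy
  omega

theorem cost_trunc (Z : YoungDiagram) (a b m n m' n' P T : ℕ) (hZ : ∀ p ∈ Z, p.1 < a ∧ p.2 < b)
    (r c : ℕ → ℕ) (hr : ∀ y, P ≤ y → r y = 0) (hc : ∀ x, P ≤ x → c x = 0)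
    (hm : m' ≤ m) (hm' : m' = m ∨ (P + b ≤ m' ∧ P + T ≤ m'))
    (hn : n' ≤ n) (hn' : n' = n ∨ (P + a ≤ n' ∧ P + T ≤ n')) (t : ℕ) :
    cost Z m' n' r c t ≤ cost Z m n r c t ∧
      (cost Z m' n' r c t < T → cost Z m n r c t = cost Z m' n' r c t) := by
  have h := enh_trunc Z a b m n m' n' P hZ r c hr hc hm (by tauto) hn (by tauto) t
  have hcst := enh_const Z m n P r c hr hc t
  have hiff : ∀ x y, ((enh Z m' n' r c t).1 y, (enh Z m' n' r c t).2 x) ∈ Z ↔
      ((enh Z m n r c t).1 y, (enh Z m n r c t).2 x) ∈ Z :=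
    fun x y => (mem_iff_of_min hZ (h.1 y) (h.2 x)).symm
  have e1 := sum_trunc m m' P r hr hm (by omega)
  have e2 := sum_trunc n n' P c hc hn (by omega)
  unfold cost unc
  rw [e1, e2]
  simp only [hiff]
  set s := enh Z m n r c t
  refine ⟨add_le_add le_rfl (card_le_card (filter_subset_filter _ (product_subset_product
    (range_subset_range.mpr hn) (range_subset_range.mpr hm)))), fun hT => ?_⟩
  congr 2
  ext p
  simp only [mem_filter, mem_product, mem_range]
  refine ⟨fun hp => ⟨?_, hp.2⟩, fun hp => ⟨⟨by omega, by omega⟩, hp.2⟩⟩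
  have hT' : ((range n' ×ˢ range m').filter fun p => (s.1 p.2, s.2 p.1) ∈ Z).card < T := by omega
  by_contra hcon
  -- a representative of `p` in the truncated rectangle
  have hx : ∃ x < n', s.2 x = s.2 p.1 := by
    by_cases h1 : p.1 < n'
    · exact ⟨p.1, h1, rfl⟩
    · exact ⟨P, by omega, (hcst.2 p.1 (by omega)).symm⟩
  have hy : ∃ y < m', s.1 y = s.1 p.2 := by
    by_cases h1 : p.2 < m'
    · exact ⟨p.2, h1, rfl⟩
    · exact ⟨P, by omega, (hcst.1 p.2 (by omega)).symm⟩
  obtain ⟨x, hx1, hx2⟩ := hx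
  obtain ⟨y, hy1, hy2⟩ := hy
  by_cases h1 : p.1 < n'
  · have h2 : ¬ p.2 < m' := fun h2 => hcon ⟨h1, h2⟩
    have : ({x} ×ˢ Ico P (P + T)) ⊆
        (range n' ×ˢ range m').filter fun p => (s.1 p.2, s.2 p.1) ∈ Z := by
      intro q hq
      simp only [mem_product, mem_singleton, mem_Ico, mem_filter, mem_range] at hq ⊢
      refine ⟨⟨by omega, by omega⟩, ?_⟩
      rw [hq.1, hx2, hcst.1 q.2 hq.2.1, ← hcst.1 p.2 (by omega)]
      exact hp.2
    have := card_le_card this
    simp at this
    omega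
  · have : (Ico P (P + T) ×ˢ {y}) ⊆
        (range n' ×ˢ range m').filter fun p => (s.1 p.2, s.2 p.1) ∈ Z := by
      intro q hq
      simp only [mem_product, mem_singleton, mem_Ico, mem_filter, mem_range] at hq ⊢
      refine ⟨⟨by omega, by omega⟩, ?_⟩
      rw [hq.2, hy2, hcst.2 q.1 hq.1.1, ← hcst.2 p.1 (by omega)]
      exact hp.2
    have := card_le_card this
    simp at this
    omega

theorem unc_antitone (Z : YoungDiagram) (m n : ℕ) (r c : ℕ → ℕ) :
    Antitone fun t => unc Z m n (enh Z m n r c t) := by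
  refine antitone_nat_of_succ_le fun t => card_le_card ?_
  intro p hp
  simp only [mem_filter] at hp ⊢
  exact ⟨hp.1, Z.up_left_mem ((enh_le_succ Z m n r c t).1 _) ((enh_le_succ Z m n r c t).2 _) hp.2⟩

theorem unc_stab (Z : YoungDiagram) (m n : ℕ) (r c : ℕ → ℕ) (t : ℕ) :
    unc Z m n (enh Z m n r c t) = unc Z m n (enh Z m n r c (min t (m * n))) := by
  obtain ⟨l, hl, hl'⟩ := Nat.stabilises_of_antitone (unc_antitone Z m n r c) (fun t ht => by
    have hsub : ((range n ×ˢ range m).filter fun p =>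
          ((enh Z m n r c (t + 1)).1 p.2, (enh Z m n r c (t + 1)).2 p.1) ∈ Z) ⊆
        (range n ×ˢ range m).filter fun p =>
          ((enh Z m n r c t).1 p.2, (enh Z m n r c t).2 p.1) ∈ Z := by
      intro p hp
      simp only [mem_filter] at hp ⊢
      exact ⟨hp.1, Z.up_left_mem ((enh_le_succ Z m n r c t).1 _)
        ((enh_le_succ Z m n r c t).2 _) hp.2⟩
    have heq := eq_of_subset_of_card_le hsub (le_of_eq ht)
    have hiff : ∀ x < n, ∀ y < m, ((enh Z m n r c (t + 1)).1 y, (enh Z m n r c (t + 1)).2 x) ∈ Z ↔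
        ((enh Z m n r c t).1 y, (enh Z m n r c t).2 x) ∈ Z := by
      intro x hx y hy
      have := Finset.ext_iff.mp heq (x, y)
      simpa [hx, hy] using this
    have h1 : ∀ y < m, (enh Z m n r c (t + 2)).1 y = (enh Z m n r c (t + 1)).1 y := by
      intro y hy
      rw [enh_succ Z m n r c (t + 1)]
      conv_rhs => rw [enh_succ]
      simp only [enhStep]
      congr 2
      exact filter_congr fun x hx => not_congr (hiff x (mem_range.mp hx) y hy)
    have h2 : ∀ x < n, (enh Z m n r c (t + 2)).2 x = (enh Z m n r c (t + 1)).2 x := by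
      intro x hx
      rw [enh_succ Z m n r c (t + 1)]
      conv_rhs => rw [enh_succ]
      simp only [enhStep]
      congr 2
      exact filter_congr fun y hy => not_congr (hiff x hx y (mem_range.mp hy))
    unfold unc
    congr 1
    refine filter_congr fun p hp => ?_
    simp only [mem_product, mem_range] at hp
    rw [h1 _ hp.2, h2 _ hp.1])
  have hl0 : l ≤ m * n := by
    refine hl.trans ((card_filter_le _ _).trans ?_)
    simp [mul_comm]
  by_cases h : t ≤ m * n
  · rw [min_eq_left h]
  · rw [min_eq_right (by omega)]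
    exact (hl' t (by omega)).trans (hl' _ hl0).symm

theorem cost_stab (Z : YoungDiagram) (m n : ℕ) (r c : ℕ → ℕ) (t : ℕ) :
    cost Z m n r c t = cost Z m n r c (min t (m * n)) := by
  unfold cost
  rw [unc_stab]

theorem gamma_le_ab (Z : YoungDiagram) (a b m n t : ℕ) (hZ : ∀ p ∈ Z, p.1 < a ∧ p.2 < b)
    (hb : b ≤ m) : gamma (t + 2) Z m n ≤ a * b := by
  refine (gamma_le_cost Z m n (fun y => if y < b then a else 0) (fun _ => 0) ?_ antitone_const
    (t + 1)).trans ?_
  · intro y y' h
    dsimp only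
    split_ifs <;> omega
  · unfold cost
    have e1 : ∑ y ∈ range m, (if y < b then a else 0) = a * b := by
      rw [← sum_filter]
      have : (range m).filter (fun y => y < b) = range b := by
        ext y; simp only [mem_filter, mem_range]; omega
      rw [this]; simp [mul_comm]
    have e2 : unc Z m n (enh Z m n (fun y => if y < b then a else 0) (fun _ => 0) (t + 1)) = 0 := by
      refine Nat.eq_zero_of_le_zero ((unc_antitone Z m n _ _ (show 1 ≤ t + 1 by omega)).trans ?_)
      simp only [nonpos_iff_eq_zero]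
      unfold unc
      rw [card_eq_zero, filter_eq_empty_iff]
      intro p _ hp
      have h1 := (hZ _ hp).2
      have : range b ⊆ (range m).filter fun y => ((if y < b then a else 0), 0) ∉ Z := by
        intro y hy
        simp only [mem_range, mem_filter] at hy ⊢
        refine ⟨by omega, fun h => ?_⟩
        have := (hZ _ h).1
        simp [hy] at this
      have h2 := card_le_card this
      rw [enh_succ, enh_zero] at h1
      simp only [enhStep, zero_add] at h1
      simp only [card_range] at h2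
      omega
    rw [e1, e2]
    simp

/-- the main estimate for latency at least two -/
theorem approx_two (Z : YoungDiagram) (a b m n t K out : ℕ) (hZ : ∀ p ∈ Z, p.1 < a ∧ p.2 < b)
    (hb : b ≤ m) (N M : ℕ) (hN : a * b ≤ N) (hK : N < 2 ^ K) (hM : 10 * N + a + b + 1 ≤ M)
    (h1 : ∀ w w' : List Bool, w.length = 2 * K → w'.length = 2 * K →
      out ≤ cost Z (min m M) (min n M) (cand N w) (cand N w') (t + 1))
    (h2 : ∃ w w' : List Bool, out = cost Z (min m M) (min n M) (cand N w) (cand N w') (t + 1)) :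
    gamma (t + 2) Z m n ≤ out ∧ out ≤ 9 * gamma (t + 2) Z m n := by
  have hg := gamma_le_ab Z a b m n t hZ hb
  have htr := fun w w' => cost_trunc Z a b m n (min m M) (min n M) N (9 * N + 1) hZ
    (cand N w) (cand N w') (cand_zero N w) (cand_zero N w') (min_le_left _ _) (by omega)
    (min_le_left _ _) (by omega) (t + 1)
  have hup : out ≤ 9 * gamma (t + 2) Z m n := by
    obtain ⟨r, c, hr, hc, hr0, hc0, e1, e2, e3⟩ := exists_sorted Z m n (t + 1)
    obtain ⟨w, a1, a2, a3⟩ := exists_cand N K m hK r hr hr0 (by rw [e1]; exact hg.trans hN)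
    obtain ⟨w', b1, b2, b3⟩ := exists_cand N K n hK c hc hc0 (by rw [e2]; exact hg.trans hN)
    refine (h1 w w' a1 b1).trans ((htr w w').1.trans ?_)
    have := unc_dom Z m n r c (cand N w) (cand N w') 1 1 (fun _ => Iff.rfl) (fun _ => Iff.rfl)
      (fun y _ => a2 y) (fun x _ => b2 x) (t + 1)
    unfold cost
    rw [e1] at a3
    rw [e2] at b3
    rw [show t + 1 + 1 = t + 2 from rfl] at *
    omega
  refine ⟨?_, hup⟩
  obtain ⟨w, w', h⟩ := h2
  rw [h, ← (htr w w').2 (by omega)]
  exact gamma_le_cost Z m n _ _ (cand_antitone N w) (cand_antitone N w') (t + 1)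

/-- the estimate for latency one -/
theorem approx_one (Z : YoungDiagram) (a b m n out : ℕ) (hZ : ∀ p ∈ Z, p.1 < a ∧ p.2 < b)
    (h0 : out ≤ m * n) (h1 : ∀ p ≤ a, ∀ q ≤ b, (p, q) ∉ Z → out ≤ m * p + n * q)
    (h2 : out = m * n ∨ ∃ p q, (p, q) ∉ Z ∧ out = m * p + n * q) :
    gamma 1 Z m n ≤ out ∧ out ≤ 4 * gamma 1 Z m n := by
  constructor
  · rcases h2 with h | ⟨p, q, hpq, h⟩
    · rw [h]; exact gamma_le_mul _ _ _ _
    · refine (gamma_le_cost Z m n (fun _ => p) (fun _ => q) antitone_const antitone_const 0).trans ?_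
      unfold cost unc
      simp [enh_zero, hpq, h]
  · obtain ⟨r, c, hr, hc, -, -, e1, e2, e3⟩ := exists_sorted Z m n 0
    rw [zero_add] at e1 e2 e3
    rcases Nat.eq_zero_or_pos m with hm | hm
    · subst hm; omega
    rcases Nat.eq_zero_or_pos n with hn | hn
    · subst hn; omega
    have key : ∀ (m : ℕ) (r : ℕ → ℕ), Antitone r → 0 < m →
        m * r (m / 2) ≤ 2 * ∑ y ∈ range m, r y := by
      intro m r hr hm
      have h1 : ∑ _z ∈ range (m / 2 + 1), r (m / 2) ≤ ∑ z ∈ range (m / 2 + 1), r z :=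
        sum_le_sum fun z hz => hr (Nat.lt_succ_iff.mp (mem_range.mp hz))
      have h2 : ∑ z ∈ range (m / 2 + 1), r z ≤ ∑ z ∈ range m, r z :=
        sum_le_sum_of_subset (range_subset_range.mpr (by omega))
      simp only [sum_const, card_range, smul_eq_mul] at h1
      have h3 : m * r (m / 2) ≤ (2 * (m / 2 + 1)) * r (m / 2) :=
        Nat.mul_le_mul_right _ (by omega)
      nlinarith
    by_cases hin : (r (m / 2), c (n / 2)) ∈ Z
    · have : (Ico (n / 2) n ×ˢ Ico (m / 2) m) ⊆
          (range n ×ˢ range m).filter fun p => (r p.2, c p.1) ∈ Z := by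
        intro p hp
        simp only [mem_product, mem_Ico, mem_filter, mem_range] at hp ⊢
        exact ⟨⟨hp.1.2, hp.2.2⟩, Z.up_left_mem (hr hp.2.1) (hc hp.1.1) hin⟩
      have h3 := card_le_card this
      simp only [card_product, Nat.card_Ico] at h3
      have h4 : m * n ≤ (2 * (m - m / 2)) * (2 * (n - n / 2)) :=
        Nat.mul_le_mul (by omega) (by omega)
      have h5 : ((range n ×ˢ range m).filter fun p => (r p.2, c p.1) ∈ Z).card ≤
        gamma 1 Z m n := e3
      nlinarith
    · have h3 := h1 (min (r (m / 2)) a) (min_le_right _ _) (min (c (n / 2)) b) (min_le_right _ _)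
        (fun h => hin ((mem_iff_of_min hZ (by simp) (by simp)).mp h))
      have h4 := key m r hr hm
      have h5 := key n c hc hn
      have h6 : m * min (r (m / 2)) a ≤ m * r (m / 2) := Nat.mul_le_mul_left _ (min_le_left _ _)
      have h7 : n * min (c (n / 2)) b ≤ n * c (n / 2) := Nat.mul_le_mul_left _ (min_le_left _ _)
      omega

end Pool.Agent.MP_a6d740_lc
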