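import Mathlib
import Pool.Agent.MP_a6d740_lc.Bin
import Pool.Agent.MP_a6d740_lc.Trunc

set_option autoImplicit false

namespace Pool.Agent.MP_a6d740_lc

open Pool.Agent.MP_2e8011_lc

variable {α β γ : Type} [Enc α] [Enc β] [Enc γ]

/-- table lookup -/
def tb (T : List (List Bool)) (p q : ℕ) : Bool := (T.getD q []).getD p false

@[fun_prop] theorem pt_tb {T : α → List (List Bool)} {p q : α → ℕ} (hT : PT T) (hp : PT p)
    (hq : PT q) : PT (fun a => tb (T a) (p a) (q a)) := by
  unfold tb
  fun_prop

/-- all bit strings of a given length -/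
def allBits (k : ℕ) : List (List Bool) :=
  (fun L : List (List Bool) => L.map (fun w => true :: w) ++ L.map (fun w => false :: w))^[k] [[]]

theorem allBits_succ (k : ℕ) : allBits (k + 1) =
    (allBits k).map (fun w => true :: w) ++ (allBits k).map (fun w => false :: w) :=
  Function.iterate_succ_apply' _ _ _

theorem mem_allBits (k : ℕ) (w : List Bool) : w ∈ allBits k ↔ w.length = k := by
  induction k generalizing w with
  | zero => simp [allBits]
  | succ k ih =>
    rw [allBits_succ]
    cases w with
    | nil => simp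
    | cons b w => cases b <;> simp [ih]

theorem length_allBits (k : ℕ) : (allBits k).length = 2 ^ k := by
  induction k with
  | zero => rfl
  | succ k ih => rw [allBits_succ]; simp [ih]; omega

theorem two_pow_size_le (N : ℕ) : 2 ^ N.size ≤ 2 * N + 1 := by
  rcases Nat.eq_zero_or_pos N with rfl | h
  · simp
  · have h1 : 0 < N.size := Nat.size_pos.mpr h
    have h2 : 2 ^ (N.size - 1) ≤ N := Nat.lt_size.mp (by omega)
    have : 2 ^ N.size = 2 * 2 ^ (N.size - 1) := by
      rw [← pow_succ']; congr 1; omega
    omega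

/-- the codes of all candidate staircases -/
def codes (N : ℕ) : List (List Bool) := allBits (2 * N.bits.length)

@[fun_prop] theorem pt_codes {N : α → ℕ} (hN : PT N) : PT (fun a => codes (N a)) := by
  have h1 : PT (fun a => 2 * (N a).bits.length) :=
    (PT.const 2).mul (pt_binBits (pt_ofUnary hN)).length
  refine PT.iter (g := fun L : List (List Bool) =>
    L.map (fun w => true :: w) ++ L.map (fun w => false :: w)) (by fun_prop) h1 (PT.const [[]])
    (B := fun a => (2 * N a + 1) ^ 2 * (2 * (2 * (N a).bits.length * 3) + 1))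
    (PT.pb (by fun_prop)) (fun a i hi => ?_)
  have h2 := sz_le_of_forall (l := allBits i) (B := 2 * (N a).bits.length * 3) (fun w hw => by
    have h3 := sz_le_of_forall (l := w) (B := 1) (fun _ _ => le_rfl)
    rw [(mem_allBits i w).mp hw] at h3
    omega)
  refine h2.trans (Nat.mul_le_mul_right _ ?_)
  rw [length_allBits]
  refine (Nat.pow_le_pow_right (by omega) hi).trans ?_
  rw [mul_comm, pow_mul, Nat.size_eq_bits_len]
  exact Nat.pow_le_pow_left (two_pow_size_le _) 2

/-- one step of the evaluation of a staircase -/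
def decStep (s : ℕ × ℕ × ℕ × Bool) (b : Bool) : ℕ × ℕ × ℕ × Bool :=
  bif s.2.2.2 then s else
    bif b then (if s.2.2.1 < s.2.1 then (s.1, s.2.1, s.2.2.1, true)
      else (s.1, 2 * s.2.1, s.2.2.1 - s.2.1, false))
    else (s.1 / 2, s.2.1, s.2.2.1, false)

theorem foldl_decStep_done (w : List Bool) (v l y : ℕ) :
    w.foldl decStep (v, l, y, true) = (v, l, y, true) := by
  induction w with
  | nil => rfl
  | cons b w ih => simpa [decStep] using ih

theorem foldl_decStep (w : List Bool) : ∀ v l y : ℕ,
    (bif (w.foldl decStep (v, l, y, false)).2.2.2 then (w.foldl decStep (v, l, y, false)).1 else 0)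
      = decF w v l y := by
  induction w with
  | nil => intro v l y; rfl
  | cons b w ih =>
    intro v l y
    cases b with
    | false => simpa [decStep, decF] using ih _ _ _
    | true =>
      by_cases h : y < l
      · simp [decStep, decF, h, foldl_decStep_done]
      · simpa [decStep, decF, h] using ih _ _ _

theorem foldl_decStep_bound (w : List Bool) (V Y : ℕ) : ∀ s : ℕ × ℕ × ℕ × Bool,
    s.1 ≤ V → s.2.1 ≤ 2 * Y + 1 → s.2.2.1 ≤ Y →
    (w.foldl decStep s).1 ≤ V ∧ (w.foldl decStep s).2.1 ≤ 2 * Y + 1 ∧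
      (w.foldl decStep s).2.2.1 ≤ Y := by
  induction w with
  | nil => intro s h1 h2 h3; exact ⟨h1, h2, h3⟩
  | cons b w ih =>
    rintro ⟨v, l, y, d⟩ h1 h2 h3
    rw [List.foldl_cons]
    simp only at h1 h2 h3
    apply ih
    all_goals
      cases d <;> cases b <;> simp only [decStep, cond_true, cond_false] <;>
        (try split_ifs) <;> (try dsimp only) <;> omega

@[fun_prop] theorem pt_decF {w : α → List Bool} {v y : α → ℕ} (hw : PT w) (hv : PT v)
    (hy : PT y) : PT (fun a => decF (w a) (v a) 1 (y a)) := by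
  have := PT.foldl (f := fun _ => decStep) (by unfold decStep; fun_prop) hw
    (s := fun a => (v a, 1, y a, false)) (by fun_prop)
    (B := fun a => 2 * v a + 6 * y a + 6) (PT.pb (by fun_prop)) (fun a k => by
      have := foldl_decStep_bound ((w a).take k) (v a) (y a) (v a, 1, y a, false) le_rfl
        (by simp) le_rfl
      generalize List.foldl decStep (v a, 1, y a, false) ((w a).take k) = s at this
      obtain ⟨x1, x2, x3, x4⟩ := s
      simp only [sz_prod, sz_nat, sz_bool] at this ⊢
      omega)
  exact (PT.cond this.snd.snd.snd this.fst (PT.const 0)).congr (fun a => foldl_decStep _ _ _ _)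

@[fun_prop] theorem pt_cand {w : α → List Bool} {N y : α → ℕ} (hN : PT N) (hw : PT w)
    (hy : PT y) : PT (fun a => cand (N a) (w a) (y a)) := by
  unfold cand
  fun_prop

@[fun_prop] theorem pt_sum {l : α → List ℕ} (hl : PT l) : PT (fun a => (l a).sum) := by
  have h1 : ∀ m : List ℕ, m.sum ≤ sz m := by
    intro m
    induction m with
    | nil => simp
    | cons x m ih => simp; omega
  refine (pt_foldr (f := fun _ (x u : ℕ) => x + u) (by fun_prop) hl (PT.const 0) hl.pb_sz
    (fun a k => ?_)).congr (fun a => List.sum_eq_foldr.symm)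
  rw [← List.sum_eq_foldr, sz_nat]
  exact (h1 _).trans (sz_drop_le _ _)

/-- one step of the enhanced dynamics on lists -/
def stepL (p : List (List Bool) × List ℕ × List ℕ) (s : List ℕ × List ℕ) : List ℕ × List ℕ :=
  ((List.range p.2.1.length).map fun y =>
      p.2.1.getD y 0 + (s.2.filter fun cx => !tb p.1 (s.1.getD y 0) cx).length,
   (List.range p.2.2.length).map fun x =>
      p.2.2.getD x 0 + (s.1.filter fun ry => !tb p.1 ry (s.2.getD x 0)).length)

theorem getD_le_sz (l : List ℕ) (i : ℕ) : l.getD i 0 ≤ sz l := by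
  by_cases h : i < l.length
  · have : l.getD i 0 ∈ l := by
      rw [List.getD_eq_getElem _ _ h]; exact List.getElem_mem h
    simpa using sz_le_of_mem this
  · rw [List.getD_eq_default _ _ (not_lt.mp h)]; exact Nat.zero_le _

theorem stepL_bound (p : List (List Bool) × List ℕ × List ℕ) (i : ℕ) :
    ((stepL p)^[i] p.2).1.length = p.2.1.length ∧ ((stepL p)^[i] p.2).2.length = p.2.2.length ∧
    (∀ x ∈ ((stepL p)^[i] p.2).1, x ≤ sz p.2.1 + sz p.2.2) ∧
    (∀ x ∈ ((stepL p)^[i] p.2).2, x ≤ sz p.2.1 + sz p.2.2) := by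
  induction i with
  | zero =>
    refine ⟨rfl, rfl, fun x hx => ?_, fun x hx => ?_⟩
    · have := sz_le_of_mem (l := p.2.1) hx
      simp at this; omega
    · have := sz_le_of_mem (l := p.2.2) hx
      simp at this; omega
  | succ i ih =>
    rw [Function.iterate_succ_apply']
    set s := (stepL p)^[i] p.2
    refine ⟨by simp [stepL], by simp [stepL], fun x hx => ?_, fun x hx => ?_⟩
    · simp only [stepL, List.mem_map] at hx
      obtain ⟨y, -, rfl⟩ := hx
      have h1 := getD_le_sz p.2.1 y
      have h2 := List.length_filter_le (fun cx => !tb p.1 (s.1.getD y 0) cx) s.2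
      have h3 := length_le_sz p.2.2
      omega
    · simp only [stepL, List.mem_map] at hx
      obtain ⟨y, -, rfl⟩ := hx
      have h1 := getD_le_sz p.2.2 y
      have h2 := List.length_filter_le (fun ry => !tb p.1 ry (s.2.getD y 0)) s.1
      have h3 := length_le_sz p.2.1
      omega

/-- the cost of an enhancement given by lists -/
def costL (p : List (List Bool) × List ℕ × List ℕ) (t : ℕ) : ℕ :=
  p.2.1.sum + p.2.2.sum +
    (((stepL p)^[t] p.2).2.flatMap fun cx =>
      ((stepL p)^[t] p.2).1.filter fun ry => tb p.1 ry cx).length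

@[fun_prop] theorem pt_iter_stepL {p : α → List (List Bool) × List ℕ × List ℕ} {t : α → ℕ}
    (hp : PT p) (ht : PT t) : PT (fun a => (stepL (p a))^[t a] (p a).2) := by
  refine PT.iterP (g := fun a => stepL (p a)) (by unfold stepL; fun_prop) ht (by fun_prop)
    (B := fun a => 3 * ((sz (p a).2.1 + sz (p a).2.2) *
      (2 * (sz (p a).2.1 + sz (p a).2.2) + 1)) + 1) (PT.pb (by fun_prop)) (fun a i _ => ?_)
  obtain ⟨h1, h2, h3, h4⟩ := stepL_bound (p a) i
  generalize (stepL (p a))^[i] (p a).2 = s at h1 h2 h3 h4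
  obtain ⟨R, C⟩ := s
  simp only at h1 h2 h3 h4
  have h5 := sz_le_of_forall (l := R) (B := sz (p a).2.1 + sz (p a).2.2)
    (fun x hx => by simpa using h3 x hx)
  have h6 := sz_le_of_forall (l := C) (B := sz (p a).2.1 + sz (p a).2.2)
    (fun x hx => by simpa using h4 x hx)
  have h7 := length_le_sz (p a).2.1
  have h8 := length_le_sz (p a).2.2
  have h9 : R.length * (2 * (sz (p a).2.1 + sz (p a).2.2) + 1) ≤
      (sz (p a).2.1 + sz (p a).2.2) * (2 * (sz (p a).2.1 + sz (p a).2.2) + 1) :=
    Nat.mul_le_mul_right _ (by omega)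
  have h10 : C.length * (2 * (sz (p a).2.1 + sz (p a).2.2) + 1) ≤
      (sz (p a).2.1 + sz (p a).2.2) * (2 * (sz (p a).2.1 + sz (p a).2.2) + 1) :=
    Nat.mul_le_mul_right _ (by omega)
  rw [sz_prod]
  omega

@[fun_prop] theorem pt_costL {p : α → List (List Bool) × List ℕ × List ℕ} {t : α → ℕ}
    (hp : PT p) (ht : PT t) : PT (fun a => costL (p a) (t a)) := by
  have h1 := pt_iter_stepL hp ht
  have h2 : PT (fun q : List (List Bool) × List ℕ × List ℕ =>
      (q.2.2.flatMap fun cx => q.2.1.filter fun ry => tb q.1 ry cx).length) := by fun_prop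
  have h3 := h2.comp (f := fun a => ((p a).1, (stepL (p a))^[t a] (p a).2))
    (PT.prodMk hp.fst h1)
  exact ((pt_sum hp.snd.fst).add (pt_sum hp.snd.snd)).add h3

theorem foldr_min_le (l : List ℕ) (s : ℕ) :
    l.foldr min s ≤ s ∧ (∀ x ∈ l, l.foldr min s ≤ x) ∧ (l.foldr min s = s ∨ l.foldr min s ∈ l) := by
  induction l with
  | nil => simp
  | cons y l ih =>
    rw [List.foldr_cons]
    refine ⟨by omega, fun x hx => ?_, ?_⟩
    · rcases List.mem_cons.mp hx with rfl | hx
      · omega
      · have := ih.2.1 x hx; omega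
    · rcases le_total y (l.foldr min s) with h | h
      · rw [min_eq_left h]; simp
      · rw [min_eq_right h]
        rcases ih.2.2 with h | h
        · exact Or.inl h
        · exact Or.inr (List.mem_cons_of_mem _ h)

/-- minimum of a list -/
def minL (l : List ℕ) : ℕ := l.foldr min (l.headD 0)

@[fun_prop] theorem pt_minL {l : α → List ℕ} (hl : PT l) : PT (fun a => minL (l a)) :=
  pt_foldr (f := fun _ (x u : ℕ) => min x u) (by fun_prop) hl (by fun_prop)
    (B := fun a => (l a).headD 0) (PT.pb (by fun_prop)) (fun a k => by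
      rw [sz_nat]; exact (foldr_min_le _ _).1)

theorem foldr_binMin (l : List Bin) (s : Bin) :
    (l.foldr Bin.min s).val = (l.map Bin.val).foldr min s.val := by
  induction l with
  | nil => rfl
  | cons y l ih => simp [Bin.min, ih]

@[fun_prop] theorem pt_foldr_binMin {l : α → List Bin} {s : α → Bin} (hl : PT l) (hs : PT s) :
    PT (fun a => (l a).foldr Bin.min (s a)) :=
  pt_foldr (f := fun _ => Bin.min) (by fun_prop) hl hs hs.pb_sz (fun a k => by
    rw [sz_bin, sz_bin, foldr_binMin]
    exact Nat.size_le_size (foldr_min_le _ _).1)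

/-- the output for latency at least two, from truncated dimensions -/
def outTwo (T : List (List Bool)) (N m n t : ℕ) : ℕ :=
  minL ((codes N).flatMap fun w => (codes N).map fun w' =>
    costL (T, (List.range m).map (cand N w), (List.range n).map (cand N w')) t)

@[fun_prop] theorem pt_outTwo {T : α → List (List Bool)} {N m n t : α → ℕ} (hT : PT T)
    (hN : PT N) (hm : PT m) (hn : PT n) (ht : PT t) :
    PT (fun a => outTwo (T a) (N a) (m a) (n a) (t a)) := by
  unfold outTwo
  fun_prop

/-- the output for latency one -/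
def outOne (T : List (List Bool)) (m n : Bin) : Bin :=
  ((List.range ((T.headD []).length + 1)).flatMap fun p =>
    ((List.range (T.length + 1)).filter fun q => !tb T p q).map fun q =>
      Bin.add (Bin.mul m ⟨p⟩) (Bin.mul n ⟨q⟩)).foldr Bin.min (Bin.mul m n)

@[fun_prop] theorem pt_outOne {T : α → List (List Bool)} {m n : α → Bin} (hT : PT T)
    (hm : PT m) (hn : PT n) : PT (fun a => outOne (T a) (m a) (n a)) := by
  unfold outOne
  fun_prop

/-- the truncation level -/
def lev (T : List (List Bool)) : ℕ :=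
  10 * ((T.headD []).length * T.length) + (T.headD []).length + T.length + 1

/-- the algorithm -/
def algo (x : Bin × Bin × Bin × List (List Bool)) : Bin :=
  if Bin.cap x.1 2 = 0 then Bin.mul x.2.1 x.2.2.1
  else if Bin.cap x.1 2 = 1 then outOne x.2.2.2 x.2.1 x.2.2.1
  else ⟨outTwo x.2.2.2 ((x.2.2.2.headD []).length * x.2.2.2.length)
    (Bin.cap x.2.1 (lev x.2.2.2)) (Bin.cap x.2.2.1 (lev x.2.2.2))
    (Bin.cap x.1 (Bin.cap x.2.1 (lev x.2.2.2) * Bin.cap x.2.2.1 (lev x.2.2.2) + 1) - 1)⟩

theorem pt_algo : PT algo := by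
  unfold algo lev
  fun_prop

end Pool.Agent.MP_a6d740_lc
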