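import Mathlib
import Pool.Agent.MP_a6d740_lc.Algo

set_option autoImplicit false

namespace Pool.Agent.MP_a6d740_lc

open Pool.Agent.MP_2e8011_lc

theorem tb_table {Z : YoungDiagram} {a b : ℕ} (hZ : ∀ p ∈ Z, p.1 < a ∧ p.2 < b) (p q : ℕ) :
    tb (table Z a b) p q = decide ((p, q) ∈ Z) := by
  unfold tb table
  by_cases hq : q < b
  · by_cases hp : p < a
    · simp [List.getD_eq_getElem?_getD, hq, hp]
    · have : (p, q) ∉ Z := fun h => hp (hZ _ h).1
      simp [List.getD_eq_getElem?_getD, hq, hp, this]
  · have : (p, q) ∉ Z := fun h => hq (hZ _ h).2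
    simp [List.getD_eq_getElem?_getD, hq, this]

theorem length_table (Z : YoungDiagram) (a b : ℕ) : (table Z a b).length = b := by
  simp [table]

theorem head_table (Z : YoungDiagram) (a b : ℕ) :
    ((table Z a b).headD []).length = if b = 0 then 0 else a := by
  cases b with
  | zero => simp [table]
  | succ b => simp [table, List.range_succ_eq_map]

theorem length_filter_map_range (n : ℕ) (f : ℕ → ℕ) (P : ℕ → Bool) (Q : ℕ → Prop)
    [DecidablePred Q] (h : ∀ x, P (f x) = true ↔ Q x) :
    (((List.range n).map f).filter P).length = ((Finset.range n).filter Q).card := by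
  induction n with
  | zero => rfl
  | succ n ih =>
    rw [List.range_succ, List.map_append, List.filter_append, List.length_append, ih,
      Finset.range_add_one, Finset.filter_insert]
    by_cases hq : Q n
    · rw [if_pos hq, Finset.card_insert_of_notMem (by simp)]
      simp [(h n).mpr hq]
    · rw [if_neg hq]
      have : P (f n) = false := by
        rw [← Bool.not_eq_true]; exact fun h' => hq ((h n).mp h')
      simp [this]

theorem getD_map_range (n : ℕ) (f : ℕ → ℕ) {i : ℕ} (h : i < n) :
    ((List.range n).map f).getD i 0 = f i := by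
  simp [List.getD_eq_getElem?_getD, h]

theorem iterate_stepL {Z : YoungDiagram} {T : List (List Bool)}
    (hT : ∀ p q, tb T p q = decide ((p, q) ∈ Z)) (m n : ℕ) (r c : ℕ → ℕ) (t : ℕ) :
    (stepL (T, (List.range m).map r, (List.range n).map c))^[t]
      ((List.range m).map r, (List.range n).map c) =
      ((List.range m).map (enh Z m n r c t).1, (List.range n).map (enh Z m n r c t).2) := by
  induction t with
  | zero => rfl
  | succ t ih =>
    rw [Function.iterate_succ_apply', ih, enh_succ]
    simp only [stepL, List.length_map, List.length_range, enhStep, Prod.mk.injEq]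
    constructor
    · refine List.map_congr_left fun y hy => ?_
      rw [List.mem_range] at hy
      rw [getD_map_range _ _ hy, getD_map_range _ _ hy]
      congr 1
      exact length_filter_map_range _ _ _ _ (fun x => by simp [hT])
    · refine List.map_congr_left fun y hy => ?_
      rw [List.mem_range] at hy
      rw [getD_map_range _ _ hy, getD_map_range _ _ hy]
      congr 1
      exact length_filter_map_range _ _ _ _ (fun x => by simp [hT])

theorem sum_map_range (n : ℕ) (f : ℕ → ℕ) :
    ((List.range n).map f).sum = ∑ i ∈ Finset.range n, f i := by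
  induction n with
  | zero => rfl
  | succ n ih => rw [List.range_succ, List.map_append, List.sum_append, ih, Finset.sum_range_succ]; simp

theorem costL_eq {Z : YoungDiagram} {T : List (List Bool)}
    (hT : ∀ p q, tb T p q = decide ((p, q) ∈ Z)) (m n : ℕ) (r c : ℕ → ℕ) (t : ℕ) :
    costL (T, (List.range m).map r, (List.range n).map c) t = cost Z m n r c t := by
  unfold costL cost
  simp only
  rw [iterate_stepL hT, sum_map_range, sum_map_range]
  congr 1
  simp only
  rw [List.length_flatMap, List.map_map, sum_map_range, unc, Finset.card_filter,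
    Finset.sum_product]
  refine Finset.sum_congr rfl fun x _ => ?_
  rw [← Finset.card_filter]
  exact length_filter_map_range _ _ _ _ (fun y => by simp [hT])

theorem minL_spec {l : List ℕ} (h : l ≠ []) : (∀ x ∈ l, minL l ≤ x) ∧ minL l ∈ l := by
  refine ⟨(foldr_min_le l _).2.1, ?_⟩
  rcases (foldr_min_le l (l.headD 0)).2.2 with h1 | h1
  · unfold minL
    rw [h1]
    cases l with
    | nil => exact (h rfl).elim
    | cons x l => simp
  · exact h1

theorem algo_correct (L m n a b : ℕ) (Z : YoungDiagram) (hZ : ∀ p ∈ Z, p.1 < a ∧ p.2 < b)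
    (hb : b ≤ m) :
    gamma L Z m n ≤ (algo (⟨L⟩, ⟨m⟩, ⟨n⟩, table Z a b)).val ∧
      (algo (⟨L⟩, ⟨m⟩, ⟨n⟩, table Z a b)).val ≤ 9 * gamma L Z m n := by
  have hT := tb_table hZ
  have hlen := length_table Z a b
  generalize ha' : ((table Z a b).headD []).length = a'
  have hZ' : ∀ p ∈ Z, p.1 < a' ∧ p.2 < b := by
    intro p hp
    have := hZ p hp
    rw [← ha', head_table, if_neg (by omega)]
    exact this
  generalize table Z a b = T at hT hlen ha'
  unfold algo
  simp only [Bin.cap]
  rcases L with _ | _ | t
  · simp [gamma_zero, Bin.mul]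
    omega
  · rw [if_neg (by simp), if_pos (by simp)]
    have h := foldr_min_le (((List.range (a' + 1)).flatMap fun p =>
      ((List.range (b + 1)).filter fun q => !tb T p q).map fun q =>
        Bin.add (Bin.mul ⟨m⟩ ⟨p⟩) (Bin.mul ⟨n⟩ ⟨q⟩)).map Bin.val) (m * n)
    have e : (outOne T ⟨m⟩ ⟨n⟩).val = ((((List.range (a' + 1)).flatMap fun p =>
      ((List.range (b + 1)).filter fun q => !tb T p q).map fun q =>
        Bin.add (Bin.mul ⟨m⟩ ⟨p⟩) (Bin.mul ⟨n⟩ ⟨q⟩)).map Bin.val).foldr min (m * n)) := by
      rw [outOne, foldr_binMin, ha', hlen]; rfl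
    rw [← e] at h
    have := approx_one Z a' b m n _ hZ' h.1 (fun p hp q hq hpq => h.2.1 _ (by
      simp only [List.mem_map, List.mem_flatMap, List.mem_range, List.mem_filter]
      exact ⟨_, ⟨p, by omega, q, ⟨by omega, by simp [hT, hpq]⟩, rfl⟩, rfl⟩)) (by
      rcases h.2.2 with h1 | h1
      · exact Or.inl h1
      · right
        simp only [List.mem_map, List.mem_flatMap, List.mem_range, List.mem_filter] at h1
        obtain ⟨_, ⟨p, -, q, ⟨-, hq⟩, rfl⟩, h2⟩ := h1
        exact ⟨p, q, by simpa [hT] using hq, h2.symm⟩)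
    simp only [zero_add]
    omega
  · rw [if_neg (by omega), if_neg (by omega)]
    have hlev : lev T = 10 * (a' * b) + a' + b + 1 := by rw [lev, ha', hlen]
    rw [ha', hlen]
    simp only
    set M := lev T
    have e : min (t + 1 + 1) (min m M * min n M + 1) - 1 = min (t + 1) (min m M * min n M) := by
      omega
    rw [e]
    have hne : ((codes (a' * b)).flatMap fun w => (codes (a' * b)).map fun w' =>
        costL (T, (List.range (min m M)).map (cand (a' * b) w),
          (List.range (min n M)).map (cand (a' * b) w')) (min (t + 1) (min m M * min n M))) ≠ [] := by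
      have h1 : List.replicate (2 * (a' * b).bits.length) true ∈ codes (a' * b) :=
        (mem_allBits _ _).mpr (by simp)
      intro h
      rw [List.flatMap_eq_nil_iff] at h
      have := h _ h1
      rw [List.map_eq_nil_iff] at this
      rw [this] at h1
      simp at h1
    obtain ⟨h1, h2⟩ := minL_spec hne
    refine approx_two Z a' b m n t (a' * b).bits.length _ hZ' hb (a' * b) M le_rfl ?_ (by omega)
      ?_ ?_
    · rw [Nat.size_eq_bits_len]; exact Nat.lt_size_self _
    · intro w w' hw hw'
      refine h1 _ ?_
      simp only [List.mem_map, List.mem_flatMap]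
      refine ⟨w, (mem_allBits _ _).mpr hw, w', (mem_allBits _ _).mpr hw', ?_⟩
      rw [costL_eq hT, ← cost_stab]
    · simp only [List.mem_map, List.mem_flatMap] at h2
      obtain ⟨w, -, w', -, h3⟩ := h2
      refine ⟨w, w', ?_⟩
      rw [cost_stab, ← costL_eq hT, h3]
      rfl

theorem isPolyTime_algo : N68a2faeb.IsPolyTime
    (fun x : ℕ × ℕ × ℕ × List (List Bool) => (algo (⟨x.1⟩, ⟨x.2.1⟩, ⟨x.2.2.1⟩, x.2.2.2)).val) :=
  isPolyTime_of_PT
    (fun x : ℕ × ℕ × ℕ × List (List Bool) => (Bin.mk x.1, Bin.mk x.2.1, Bin.mk x.2.2.1, x.2.2.2))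
    Bin.mk
    (bitEncode_prod bitEncode_bin (bitEncode_prod bitEncode_bin (bitEncode_prod (κ := id)
      bitEncode_bin (agree_list (agree_list agree_bool)))))
    bitEncode_bin pt_algo (fun _ => rfl)

end Pool.Agent.MP_a6d740_lc
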