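import Mathlib
import Pool.Agent.MP_a6d740_lc.Main

set_option autoImplicit false

namespace Pool.Agent.MP_a6d740_lc

open Pool.Agent.MP_2e8011_lc

theorem poly_bound (p : Polynomial ℕ) :
    ∃ k c : ℕ, ∀ x : ℕ, 1 ≤ x → p.eval (10 * x) ≤ c * x ^ k := by
  induction p using Polynomial.induction_on' with
  | add p q hp hq =>
    obtain ⟨k, c, h1⟩ := hp
    obtain ⟨k', c', h2⟩ := hq
    refine ⟨max k k', c + c', fun x hx => ?_⟩
    have a1 : c * x ^ k ≤ c * x ^ max k k' :=
      Nat.mul_le_mul_left _ (Nat.pow_le_pow_right hx (le_max_left _ _))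
    have a2 : c' * x ^ k' ≤ c' * x ^ max k k' :=
      Nat.mul_le_mul_left _ (Nat.pow_le_pow_right hx (le_max_right _ _))
    have := h1 x hx
    have := h2 x hx
    rw [Polynomial.eval_add, add_mul]
    omega
  | monomial k a =>
    refine ⟨k, a * 10 ^ k, fun x _ => ?_⟩
    rw [Polynomial.eval_monomial, mul_pow, mul_assoc]

theorem length_input (L m n a b : ℕ) (Z : YoungDiagram) (ha : 1 ≤ a) (hb : 1 ≤ b) :
    (N487b59b3.bitEncode (L, m, n, table Z a b)).length ≤
      10 * (a * b + L.size + m.size + n.size) := by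
  have e := bitEncode_prod bitEncode_bin (bitEncode_prod bitEncode_bin (bitEncode_prod (κ := id)
      bitEncode_bin (agree_list (agree_list agree_bool)))) (L, m, n, table Z a b)
  rw [e]
  change sz (Bin.mk L, Bin.mk m, Bin.mk n, table Z a b) ≤ _
  simp only [sz_prod, sz_bin]
  have h1 := sz_le_of_forall (l := table Z a b) (B := a * 3) (fun w hw => by
    have h3 := sz_le_of_forall (l := w) (B := 1) (fun _ _ => le_rfl)
    simp only [table, List.mem_map] at hw
    obtain ⟨y, -, rfl⟩ := hw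
    simpa using h3)
  rw [length_table] at h1
  have h2 : b ≤ a * b := Nat.le_mul_of_pos_left _ ha
  have h3 : b * (2 * (a * 3) + 1) = 6 * (a * b) + b := by ring
  omega

theorem exists_machine :
    ∃ (k c : ℕ) (M : Turing.TM2ComputableAux Bool Bool) (f : ℕ × ℕ × ℕ × List (List Bool) → ℕ),
      (∀ (L m n a b : ℕ) (Z : YoungDiagram), 1 ≤ a → 1 ≤ b →
        Nonempty (Turing.TM2OutputsInTime M.tm
          ((N487b59b3.bitEncode (L, m, n, table Z a b)).map M.inputAlphabet.symm)
          (some ((Computability.encodeNat (f (L, m, n, table Z a b))).map M.outputAlphabet.symm))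
          (c * (a * b + L.size + m.size + n.size) ^ k))) ∧
      ∀ x, f x = (algo (⟨x.1⟩, ⟨x.2.1⟩, ⟨x.2.2.1⟩, x.2.2.2)).val := by
  obtain ⟨P⟩ := isPolyTime_algo
  obtain ⟨k, c, hp⟩ := poly_bound P.time
  refine ⟨k, c, P.toTM2ComputableAux, _, fun L m n a b Z ha hb => ?_, fun _ => rfl⟩
  have h := P.outputsFun (L, m, n, table Z a b)
  refine ⟨⟨h.toEvalsTo, h.steps_le_m.trans ?_⟩⟩
  refine (eval_mono _ (length_input L m n a b Z ha hb)).trans (hp _ ?_)
  have : 1 ≤ a * b := Nat.mul_pos ha hb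
  omega

end Pool.Agent.MP_a6d740_lc
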